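import Pool.Agent.Lib.OOD.MaxPlanar

/-!
# From a 3-colouring of the rows and columns to a partition of the grid graph
-/

set_option autoImplicit false

namespace Pool.Agent.OOD

open SimpleGraph

/-- A graph with a rank and a parent function is a forest. -/
lemma isAcyclic_of_rank {W : Type*} {H : SimpleGraph W} (f : W → ℕ) (par : W → W)
    (h : ∀ u v, H.Adj u v → (f v < f u ∧ par u = v) ∨ (f u < f v ∧ par v = u)) : H.IsAcyclic := by
  rw [isAcyclic_iff_free_cycleGraph]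
  rintro n hn ⟨φ⟩
  obtain ⟨N, rfl⟩ : ∃ N, n = N + 3 := ⟨n - 3, by omega⟩
  obtain ⟨i, hi⟩ := Finite.exists_max (fun i : Fin (N + 3) => f (φ i))
  have hadj : ∀ a b : Fin (N + 3), b - a = 1 → H.Adj (φ a) (φ b) := by
    intro a b hab
    apply φ.toHom.map_adj
    exact (cycleGraph_adj (n := N + 1)).2 (Or.inr hab)
  have h1 : H.Adj (φ i) (φ (i + 1)) := hadj i (i + 1) (by abel)
  have h2 : H.Adj (φ i) (φ (i - 1)) := (hadj (i - 1) i (by abel)).symm
  have k1 := hi (i + 1)
  have k2 := hi (i - 1)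
  rcases h _ _ h1 with ⟨-, e1⟩ | ⟨c, -⟩
  · rcases h _ _ h2 with ⟨-, e2⟩ | ⟨c, -⟩
    · have e3 : φ (i + 1) = φ (i - 1) := e1.symm.trans e2
      have e4 : i + 1 = i - 1 := φ.injective e3
      have e5 : (1 + 1 : Fin (N + 3)) = 0 := by
        have : i + 1 - (i - 1) = 0 := by rw [e4]; abel
        calc (1 + 1 : Fin (N + 3)) = i + 1 - (i - 1) := by abel
          _ = 0 := this
      have e6 := congrArg Fin.val e5
      have e7 : ((1 : Fin (N + 3)) : ℕ) = 1 := Fin.val_one (n := N + 1)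
      rw [Fin.val_add, e7, Fin.val_zero, Nat.mod_eq_of_lt (by omega)] at e6
      omega
    · omega
  · omega

section

variable {n : ℕ} {τ : ℕ → ℕ → ℕ}

/-- colour of a vertex -/
def gc (n : ℕ) (τ : ℕ → ℕ → ℕ) (X Y : ℕ → ℕ) (v : ℕ × ℕ × ℕ) : ℕ :=
  if v.1 = n + 2 then 1 else if v.2.2 < 7 then colB (X v.1) (Y v.2.1) v.2.2
  else pk 2 (colN (τ v.1 v.2.1) (X v.1) (Y v.2.1)) v.2.2

/-- rank of a vertex -/
def gr (n : ℕ) (τ : ℕ → ℕ → ℕ) (X Y : ℕ → ℕ) (v : ℕ × ℕ × ℕ) : ℕ :=
  if v.1 = n + 2 then 0 else if v.2.2 < 7 then 0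
  else pk 6 (rkN (τ v.1 v.2.1) (X v.1) (Y v.2.1)) v.2.2

/-- parent of a vertex -/
def gpar (n : ℕ) (τ : ℕ → ℕ → ℕ) (X Y : ℕ → ℕ) (v : ℕ × ℕ × ℕ) : ℕ × ℕ × ℕ :=
  gv n v.1 v.2.1 (pk 10 (parN (τ v.1 v.2.1) (X v.1) (Y v.2.1)) v.2.2)

theorem Good.gc_gr (hg : Good n τ) {X Y : ℕ → ℕ} {i j r : ℕ} (hi : i < n + 2)
    (hr : vref (τ i j) r = true) :
    gc n τ X Y (gv n i j r) = lc (τ i j) (X i) (Y j) r ∧
      gr n τ X Y (gv n i j r) = lr (τ i j) (X i) (Y j) r ∧
      (0 < lr (τ i j) (X i) (Y j) r →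
        gpar n τ X Y (gv n i j r) = gv n i j (lp (τ i j) (X i) (Y j) r)) := by
  have hb := hg.vref_bound hi hr
  simp only [vref, Bool.or_eq_true, Bool.and_eq_true, decide_eq_true_eq] at hr
  by_cases h4 : r % 4 = 0 ∧ r < 1020
  · obtain ⟨h4, h1⟩ := h4
    rw [gv_own h1 h4]
    refine ⟨?_, ?_, fun _ => rfl⟩
    · unfold gc lc
      simp only
      rw [if_neg (show ¬ i = n + 2 by omega), if_neg (show ¬ 1020 ≤ r by omega)]
    · unfold gr lr
      simp only
      rw [if_neg (show ¬ i = n + 2 by omega), if_neg (show ¬ 1020 ≤ r by omega)]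
  · have hcases : r = 1020 ∨ r = 1021 ∨ (r = 3 ∨ r = 1 ∨ r = 5 ∨ r = 9 ∨ r = 13) ∨ r = 2 ∨ r = 18 ∨
        r = 22 ∨ r = 26 := by
      rcases hr with ((⟨⟨h1, h2⟩, h3⟩ | ⟨h0, h1⟩) | ⟨h0, h1⟩) | ⟨h0, h1⟩ <;> omega
    have hi3 : ¬ i = n + 2 := by omega
    rcases hcases with rfl | rfl | hc | hc
    · refine ⟨by simp [gc, gv, lc], by simp [gr, gv, lr], fun h => ?_⟩
      simp [lr] at h
    · refine ⟨by simp [gc, gv, lc], by simp [gr, gv, lr], fun h => ?_⟩
      simp [lr] at h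
    · have hi4 : ¬ i = n + 1 := by omega
      rcases hc with rfl | rfl | rfl | rfl | rfl
      all_goals
        refine ⟨?_, ?_, fun h => ?_⟩
        · rw [gv_lt (by norm_num)]
          simp [gc, lc, colB, hi4]
        · rw [gv_lt (by norm_num)]
          simp [gr, lr]
        · simp [lr] at h
    · rcases hc with rfl | rfl | rfl | rfl
      all_goals
        refine ⟨?_, ?_, fun h => ?_⟩
        · rw [gv_lt (by norm_num)]
          simp [gc, lc, colB, hi3]
        · rw [gv_lt (by norm_num)]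
          simp [gr, lr]
        · simp [lr] at h

/-- A 3-colouring of rows and columns gives a partition of the grid graph. -/
theorem complete (hg : Good n τ) (X Y : ℕ → ℕ) (hX : ∀ i, X i < 3) (hY : ∀ j, Y j < 3)
    (h : ∀ i j, 1 ≤ i → i ≤ n → j < n → (τ i j = 3 → X i ≠ Y j) ∧ (τ i j = 4 → X i = Y j)) :
    HasPart (gridGraph hg) := by
  -- the main property of an edge
  have key : ∀ u v, (u, v) ∈ edgeL n τ → gc n τ X Y u < 3 ∧
      (gc n τ X Y u = gc n τ X Y v → gc n τ X Y u = 2 ∧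
        ((gr n τ X Y v < gr n τ X Y u ∧ gpar n τ X Y u = v) ∨
          (gr n τ X Y u < gr n τ X Y v ∧ gpar n τ X Y v = u))) := by
    intro u v huv
    rw [mem_edgeL] at huv
    obtain ⟨d, hd, hu, hv⟩ := huv
    have hd' := gp_valid hg hd
    have v1 := hg.vref_src hd
    have v2 := hg.vref_src hd'
    obtain ⟨i, j, e⟩ := d
    obtain ⟨hi, hj, he⟩ := hd
    simp only [gp] at hi hj he v1 v2
    have ok : okxy (τ i j) (X i) (Y j) = true := by
      simp only [okxy, Bool.and_eq_true, Bool.or_eq_true, Bool.not_eq_true', decide_eq_true_eq,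
        decide_eq_false_iff_not]
      by_cases h0 : i = 0
      · rw [h0, hg.top]; simp
      by_cases h1 : i = n + 1
      · rw [h1, hg.bot]; simp
      obtain ⟨h3, h4⟩ := h i j (by omega) (by omega) hj
      constructor
      · by_cases h5 : τ i j = 3
        · right; exact h3 h5
        · left; exact h5
      · by_cases h5 : τ i j = 4
        · right; exact h4 h5
        · left; exact h5
    have h6 := loc6 (hg.lt5 j hi) (hX i) (hY j) ok he
    simp only [chk6, Bool.and_eq_true, Bool.or_eq_true, Bool.not_eq_true', decide_eq_true_eq,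
      decide_eq_false_iff_not] at h6
    obtain ⟨c1, r1, p1⟩ := hg.gc_gr (X := X) (Y := Y) hi v1
    obtain ⟨c2, r2, p2⟩ := hg.gc_gr (X := X) (Y := Y) hi v2
    have eu : gv n i j (src (τ i j) e) = u := hu
    have ev : gv n i j (src (τ i j) (phi e)) = v := hv
    rw [eu] at c1 r1 p1
    rw [ev] at c2 r2 p2
    have et : tgt (τ i j) e = src (τ i j) (phi e) := rfl
    rw [et] at h6
    rw [c1, c2, r1, r2]
    refine ⟨h6.1, fun hc => ?_⟩
    rcases h6.2 with h7 | ⟨h7, h8⟩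
    · exact absurd hc h7
    · refine ⟨h7, ?_⟩
      rcases h8 with ⟨h8, h9⟩ | ⟨h8, h9⟩
      · left
        refine ⟨h8, ?_⟩
        rw [p1 (by omega), h9, ev]
      · right
        refine ⟨h8, ?_⟩
        rw [p2 (by omega), h9, eu]
  have hadj : ∀ a b, (gridGraph hg).Adj a b → ((names n τ)[a], (names n τ)[b]) ∈ edgeL n τ :=
    fun a b h => h
  have hlt : ∀ a b, (gridGraph hg).Adj a b → gc n τ X Y ((names n τ)[a]) < 3 ∧
      gc n τ X Y ((names n τ)[b]) < 3 := fun a b hab =>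
    ⟨(key _ _ (hadj a b hab)).1, (key _ _ (hadj b a hab.symm)).1⟩
  refine ⟨fun a => ⟨gc n τ X Y ((names n τ)[a]) % 3, Nat.mod_lt _ (by norm_num)⟩, ?_, ?_⟩
  · intro a b hab hc
    obtain ⟨l1, l2⟩ := hlt a b hab
    have hc' := congrArg Fin.val hc
    simp only at hc'
    rw [Nat.mod_eq_of_lt l1, Nat.mod_eq_of_lt l2] at hc'
    have := ((key _ _ (hadj a b hab)).2 hc').1
    apply Fin.ext
    show _ % 3 = 2
    rw [this]
  · classical
    have hinj : ∀ a b : Fin (names n τ).length, (names n τ)[a] = (names n τ)[b] → a = b := by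
      intro a b hab
      exact Fin.ext ((List.Nodup.getElem_inj_iff nodup_names).1 hab)
    let par : {v : Fin (names n τ).length | (⟨gc n τ X Y ((names n τ)[v]) % 3,
          Nat.mod_lt _ (by norm_num)⟩ : Fin 3) = 2} → {v : Fin (names n τ).length |
          (⟨gc n τ X Y ((names n τ)[v]) % 3, Nat.mod_lt _ (by norm_num)⟩ : Fin 3) = 2} := fun a =>
      if hh : ∃ b : {v : Fin (names n τ).length | (⟨gc n τ X Y ((names n τ)[v]) % 3,
          Nat.mod_lt _ (by norm_num)⟩ : Fin 3) = 2},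
        gpar n τ X Y ((names n τ)[a.val]) = (names n τ)[b.val] then hh.choose else a
    have hpar : ∀ a b, gpar n τ X Y ((names n τ)[a.val]) = (names n τ)[b.val] → par a = b := by
      intro a b hab
      have hh : ∃ b : {v : Fin (names n τ).length | (⟨gc n τ X Y ((names n τ)[v]) % 3,
          Nat.mod_lt _ (by norm_num)⟩ : Fin 3) = 2},
        gpar n τ X Y ((names n τ)[a.val]) = (names n τ)[b.val] := ⟨b, hab⟩
      have e1 : par a = hh.choose := dif_pos hh
      rw [e1]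
      exact Subtype.ext (hinj _ _ (hh.choose_spec.symm.trans hab))
    refine isAcyclic_of_rank (fun a => gr n τ X Y ((names n τ)[a.val])) par ?_
    intro u v huv
    have huv' : (gridGraph hg).Adj u.val v.val := huv
    obtain ⟨l1, l2⟩ := hlt _ _ huv'
    have c1 : gc n τ X Y ((names n τ)[u.val]) % 3 = 2 := congrArg Fin.val u.property
    have c2 : gc n τ X Y ((names n τ)[v.val]) % 3 = 2 := congrArg Fin.val v.property
    rw [Nat.mod_eq_of_lt l1] at c1
    rw [Nat.mod_eq_of_lt l2] at c2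
    obtain ⟨-, h1⟩ := (key _ _ (hadj _ _ huv')).2 (c1.trans c2.symm)
    rcases h1 with ⟨h1, h2⟩ | ⟨h1, h2⟩
    · exact Or.inl ⟨h1, hpar u v h2⟩
    · exact Or.inr ⟨h1, hpar v u h2⟩

end

end Pool.Agent.OOD
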