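import Pool.Agent.Lib.CookLevin.Defs

/-!
# The string of a graph
-/

set_option autoImplicit false

namespace Pool.Agent.OOD

open Pool.Agent.Lib.CookLevin

open Classical in
/-- the string of a graph on `Fin n`: `n` in unary, followed by `0` and by the rows of the adjacency
matrix -/
noncomputable def encodeGraph (G : Σ n, SimpleGraph (Fin n)) : Word :=
  List.replicate G.1 true ++ false ::
    (List.ofFn fun u => List.ofFn fun v => decide (G.2.Adj u v)).flatten

end Pool.Agent.OOD
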