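import Pool.Agent.Lib.OOD.Grid

/-!
# The grid graph on the list of its vertices
-/

set_option autoImplicit false

namespace Pool.Agent.OOD

/-- the blocks -/
def blocks (n : ℕ) : List (ℕ × ℕ) := (List.range (n + 2)) ×ˢ (List.range n)

/-- the vertices owned by a block of kind `t` -/
def ownL (t : ℕ) : List ℕ := (List.range 255).filter (own t)

/-- the list of all vertices -/
def names (n : ℕ) (τ : ℕ → ℕ → ℕ) : List (ℕ × ℕ × ℕ) :=
  (blocks n).flatMap (fun p => (ownL (τ p.1 p.2)).map fun k => (p.1, p.2, k)) ++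
    [(n + 2, 0, 0), (n + 2, 0, 1)]

/-- the list of all darts -/
def dartL (n : ℕ) (τ : ℕ → ℕ → ℕ) : List (ℕ × ℕ × ℕ) :=
  (blocks n).flatMap fun p => (List.range (ndN (τ p.1 p.2))).map fun e => (p.1, p.2, e)

/-- the list of all pairs of adjacent vertices -/
def edgeL (n : ℕ) (τ : ℕ → ℕ → ℕ) : List ((ℕ × ℕ × ℕ) × (ℕ × ℕ × ℕ)) :=
  (dartL n τ).map fun d => (gs n τ d, gs n τ (gp d))

/-- A partition of the vertices into two independent sets (colours `0`, `1`) and a set inducing a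
forest (colour `2`). -/
def HasPart {V : Type*} (G : SimpleGraph V) : Prop :=
  ∃ p : V → Fin 3, (∀ a b, G.Adj a b → p a = p b → p a = 2) ∧
    (G.induce {v | p v = 2}).IsAcyclic

section

variable {n : ℕ} {τ : ℕ → ℕ → ℕ}

lemma mem_blocks {i j : ℕ} : (i, j) ∈ blocks n ↔ i < n + 2 ∧ j < n := by
  simp [blocks]

lemma mem_ownL {t k : ℕ} : k ∈ ownL t ↔ own t k = true := by
  simp only [ownL, List.mem_filter, List.mem_range]
  exact ⟨fun h => h.2, fun h => ⟨own_lt h, h⟩⟩

/-- valid vertices -/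
def VV (n : ℕ) (τ : ℕ → ℕ → ℕ) (v : ℕ × ℕ × ℕ) : Prop :=
  (v.1 < n + 2 ∧ v.2.1 < n ∧ own (τ v.1 v.2.1) v.2.2 = true) ∨ v = (n + 2, 0, 0) ∨ v = (n + 2, 0, 1)

lemma mem_names {v : ℕ × ℕ × ℕ} : v ∈ names n τ ↔ VV n τ v := by
  obtain ⟨i, j, k⟩ := v
  simp only [names, List.mem_append, List.mem_flatMap, List.mem_map, Prod.exists, mem_blocks,
    mem_ownL, VV, List.mem_cons, List.not_mem_nil, or_false]
  constructor
  · rintro (⟨a, b, ⟨h1, h2⟩, c, h3, h4⟩ | h)
    · simp only [Prod.mk.injEq] at h4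
      obtain ⟨rfl, rfl, rfl⟩ := h4
      exact Or.inl ⟨h1, h2, h3⟩
    · exact Or.inr h
  · rintro (⟨h1, h2, h3⟩ | h)
    · exact Or.inl ⟨i, j, ⟨h1, h2⟩, k, h3, rfl⟩
    · exact Or.inr h

lemma mem_dartL {d : ℕ × ℕ × ℕ} : d ∈ dartL n τ ↔ DV n τ d := by
  obtain ⟨i, j, e⟩ := d
  simp only [dartL, List.mem_flatMap, List.mem_map, Prod.exists, mem_blocks, List.mem_range, DV]
  constructor
  · rintro ⟨a, b, ⟨h1, h2⟩, c, h3, h4⟩
    simp only [Prod.mk.injEq] at h4
    obtain ⟨rfl, rfl, rfl⟩ := h4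
    exact ⟨h1, h2, h3⟩
  · rintro ⟨h1, h2, h3⟩
    exact ⟨i, j, ⟨h1, h2⟩, e, h3, rfl⟩

lemma mem_edgeL {u v : ℕ × ℕ × ℕ} :
    (u, v) ∈ edgeL n τ ↔ ∃ d, DV n τ d ∧ gs n τ d = u ∧ gs n τ (gp d) = v := by
  simp only [edgeL, List.mem_map, mem_dartL, Prod.mk.injEq]

/-! ### References -/

/-- The references of a block are different vertices. -/
lemma gv_inj (hn : 3 ≤ n) {i j r r' : ℕ} (hi : i < n + 2) (hr : r < 1022)
    (hr' : r' < 1022) (hd : i + 1 < n + 2 ∨ r % 2 = 0 ∨ 1020 ≤ r)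
    (hd' : i + 1 < n + 2 ∨ r' % 2 = 0 ∨ 1020 ≤ r')
    (h : gv n i j r = gv n i j r') : r = r' := by
  have hsc : sc n j ≠ j := by unfold sc; split_ifs <;> omega
  by_cases h1 : r < 1020
  · by_cases h2 : r' < 1020
    · rw [gv_lt h1, gv_lt h2] at h
      simp only [Prod.mk.injEq] at h
      obtain ⟨h3, h4, h5⟩ := h
      have h6 : (r / 2) % 2 = (r' / 2) % 2 := by
        by_cases h7 : (r / 2) % 2 = 1
        · by_cases h8 : (r' / 2) % 2 = 1
          · omega
          · rw [if_pos h7, if_neg h8] at h4; exact absurd h4 hsc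
        · by_cases h8 : (r' / 2) % 2 = 1
          · rw [if_neg h7, if_pos h8] at h4; exact absurd h4.symm hsc
          · omega
      omega
    · exfalso
      rw [gv_lt h1] at h
      have h3 : r' = 1020 ∨ r' = 1021 := by omega
      have : (gv n i j r').1 = n + 2 := by rcases h3 with rfl | rfl <;> simp [gv]
      have h4 := congrArg Prod.fst h
      rw [this] at h4
      simp only at h4
      omega
  · by_cases h2 : r' < 1020
    · exfalso
      rw [gv_lt h2] at h
      have h3 : r = 1020 ∨ r = 1021 := by omega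
      have : (gv n i j r).1 = n + 2 := by rcases h3 with rfl | rfl <;> simp [gv]
      have h4 := congrArg Prod.fst h
      rw [this] at h4
      simp only at h4
      omega
    · have h3 : r = 1020 ∨ r = 1021 := by omega
      have h4 : r' = 1020 ∨ r' = 1021 := by omega
      rcases h3 with rfl | rfl <;> rcases h4 with rfl | rfl <;> simp [gv] at h ⊢

lemma own_top {k : ℕ} : own 0 k = true ↔ (7 ≤ k ∧ k < 10) := by
  constructor
  · intro h
    have hk := own_lt h
    revert h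
    revert k
    decide +kernel
  · rintro ⟨h1, h2⟩
    interval_cases k <;> decide +kernel

lemma own_bot {k : ℕ} : own 1 k = true ↔ (k < 4 ∨ (7 ≤ k ∧ k < 10)) := by
  constructor
  · intro h
    have hk := own_lt h
    revert h
    revert k
    decide +kernel
  · rintro (h1 | ⟨h1, h2⟩) <;> interval_cases k <;> decide +kernel

lemma own_mid {t k : ℕ} (h2 : 2 ≤ t) (h5 : t < 5) (hk : k < 7) : own t k = true := by
  interval_cases t <;> interval_cases k <;> decide +kernel

/-- valid references give valid vertices -/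
lemma Good.gv_valid (hg : Good n τ) {i j r : ℕ} (hi : i < n + 2) (hj : j < n)
    (hr : vref (τ i j) r = true) : VV n τ (gv n i j r) := by
  have hn := hg.hn
  simp only [vref, Bool.or_eq_true, Bool.and_eq_true, decide_eq_true_eq] at hr
  have hsj := sc_lt hj
  -- a vertex `k < 4` of the next row
  have down : ∀ j', j' < n → ∀ k < 4, i + 1 < n + 2 → VV n τ (i + 1, j', k) := by
    intro j' hj' k hk hi'
    left
    refine ⟨hi', hj', ?_⟩
    by_cases h : i + 1 = n + 1
    · show own (τ (i + 1) j') k = true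
      rw [h, hg.bot, own_bot]; left; exact hk
    · obtain ⟨h1, h2⟩ := hg.mid (i + 1) j' (by omega) (by omega)
      exact own_mid h1 h2 (lt_trans hk (by norm_num))
  rcases hr with ((⟨⟨h1, h2⟩, h3⟩ | ⟨h0, h1⟩) | ⟨h0, h1⟩) | ⟨h0, h1⟩
  · rw [gv_lt h1, if_neg (by omega), (by omega : r % 2 = 0)]
    exact Or.inl ⟨hi, hj, h3⟩
  · have hi0 := hg.tau_eq_zero hi h0
    subst hi0
    rcases h1 with ((((h1 | h1) | h1) | h1) | h1) | h1 <;> subst h1
    · right; left; simp [gv]
    all_goals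
      rw [gv_lt (by norm_num)]
      norm_num
    · exact down _ hsj 0 (by norm_num) (by omega)
    · exact down _ hj 0 (by norm_num) (by omega)
    · exact down _ hj 1 (by norm_num) (by omega)
    · exact down _ hj 2 (by norm_num) (by omega)
    · exact down _ hj 3 (by norm_num) (by omega)
  · have hi0 := hg.tau_eq_one hi h0
    subst hi0
    rcases h1 with h1 | h1 <;> subst h1
    · right; right; simp [gv]
    · rw [gv_lt (by norm_num)]
      norm_num
      left
      refine ⟨hi, hsj, ?_⟩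
      show own (τ (n + 1) (sc n j)) 0 = true
      rw [hg.bot, own_bot]; left; norm_num
  · have hi1 : 1 ≤ i := by
      by_contra h
      have : i = 0 := by omega
      rw [this, hg.top] at h0; omega
    have hi2 : i ≤ n := by
      by_contra h
      have : i = n + 1 := by omega
      rw [this, hg.bot] at h0; omega
    obtain ⟨h3, h4⟩ := hg.mid i (sc n j) hi1 hi2
    have right' : ∀ k < 7, VV n τ (i, sc n j, k) := fun k hk => Or.inl ⟨hi, hsj, own_mid h3 h4 hk⟩
    rcases h1 with (((((((h1 | h1) | h1) | h1) | h1) | h1) | h1) | h1) | h1 <;> subst h1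
    all_goals
      rw [gv_lt (by norm_num)]
      norm_num
    · exact down _ hsj 0 (by norm_num) (by omega)
    · exact down _ hj 0 (by norm_num) (by omega)
    · exact down _ hj 1 (by norm_num) (by omega)
    · exact down _ hj 2 (by norm_num) (by omega)
    · exact down _ hj 3 (by norm_num) (by omega)
    · exact right' 0 (by norm_num)
    · exact right' 4 (by norm_num)
    · exact right' 5 (by norm_num)
    · exact right' 6 (by norm_num)

lemma Good.vref_src (hg : Good n τ) {d : ℕ × ℕ × ℕ} (hd : DV n τ d) :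
    vref (τ d.1 d.2.1) (src (τ d.1 d.2.1) d.2.2) = true := by
  have h1 := loc1 (hg.lt5 d.2.1 hd.1) hd.2.2
  simp only [chk1, Bool.and_eq_true] at h1
  exact h1.1.1.2

lemma gp_valid (hg : Good n τ) {d : ℕ × ℕ × ℕ} (hd : DV n τ d) : DV n τ (gp d) :=
  ⟨hd.1, hd.2.1, phi_lt (hg.lt5 d.2.1 hd.1) hd.2.2⟩

lemma Good.gs_valid (hg : Good n τ) {d : ℕ × ℕ × ℕ} (hd : DV n τ d) : VV n τ (gs n τ d) :=
  hg.gv_valid hd.1 hd.2.1 (hg.vref_src hd)

/-- bounds for valid references -/
lemma Good.vref_bound (hg : Good n τ) {i j r : ℕ} (hi : i < n + 2)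
    (hr : vref (τ i j) r = true) : r < 1022 ∧ (i + 1 < n + 2 ∨ r % 2 = 0 ∨ 1020 ≤ r) := by
  simp only [vref, Bool.or_eq_true, Bool.and_eq_true, decide_eq_true_eq] at hr
  rcases hr with ((⟨⟨h1, h2⟩, h3⟩ | ⟨h0, h1⟩) | ⟨h0, h1⟩) | ⟨h0, h1⟩
  · omega
  · have := hg.tau_eq_zero hi h0; omega
  · omega
  · have : i ≠ n + 1 := by rintro rfl; rw [hg.bot] at h0; omega
    omega

/-- valid references of a block with the same vertex are equal -/
lemma Good.gv_inj (hg : Good n τ) {i j r r' : ℕ} (hi : i < n + 2) (_hj : j < n)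
    (hr : vref (τ i j) r = true) (hr' : vref (τ i j) r' = true)
    (h : gv n i j r = gv n i j r') : r = r' :=
  OOD.gv_inj hg.hn hi (hg.vref_bound hi hr).1 (hg.vref_bound hi hr').1
    (hg.vref_bound hi hr).2 (hg.vref_bound hi hr').2 h

lemma Good.gs_ne (hg : Good n τ) {d : ℕ × ℕ × ℕ} (hd : DV n τ d) :
    gs n τ d ≠ gs n τ (gp d) := by
  intro h
  have h1 := loc1 (hg.lt5 d.2.1 hd.1) hd.2.2
  simp only [chk1, Bool.and_eq_true, Bool.not_eq_true', decide_eq_false_iff_not] at h1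
  exact h1.1.2 (hg.gv_inj hd.1 hd.2.1 (hg.vref_src hd) (hg.vref_src (gp_valid hg hd)) h)

lemma Good.edgeL_symm (hg : Good n τ) {u v : ℕ × ℕ × ℕ} (h : (u, v) ∈ edgeL n τ) :
    (v, u) ∈ edgeL n τ := by
  rw [mem_edgeL] at h ⊢
  obtain ⟨d, hd, h1, h2⟩ := h
  obtain ⟨h3, -, h4, h5⟩ := hg.ga_spec hd
  exact ⟨ga n τ d, h3, by rw [h4, h2], by rw [h5, h1]⟩

lemma Good.edgeL_ne (hg : Good n τ) {u v : ℕ × ℕ × ℕ} (h : (u, v) ∈ edgeL n τ) : u ≠ v := by
  rw [mem_edgeL] at h
  obtain ⟨d, hd, h1, h2⟩ := h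
  rw [← h1, ← h2]
  exact hg.gs_ne hd

/-- The grid graph. -/
def gridGraph (hg : Good n τ) : SimpleGraph (Fin (names n τ).length) where
  Adj a b := ((names n τ)[a], (names n τ)[b]) ∈ edgeL n τ
  symm := ⟨fun _ _ h => hg.edgeL_symm h⟩
  loopless := ⟨fun _ h => hg.edgeL_ne h rfl⟩

end

end Pool.Agent.OOD
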