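import Pool.Agent.Lib.OOD.Reduce
import Pool.Agent.Lib.OOD.Encode

/-!
# The grid graph of a list of edges is computed in polynomial time
-/

set_option autoImplicit false

namespace Pool.Agent.OOD

open Pool.Agent.PolyTime

section

variable {α β : Type*} [Enc α] [Enc β]

/-- case distinction on the kind -/
lemma PT_byKind {t : α → ℕ} (ht : PT t) (F : ℕ → β) (hF : ∀ m, F (m + 5) = F 4) :
    PT fun a => F (t a) := by
  have h : PT fun a => if t a = 0 then F 0 else if t a = 1 then F 1 else if t a = 2 then F 2 else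
      if t a = 3 then F 3 else F 4 :=
    PT.ite (PT.decide_eq ht (PT.const 0)) (PT.const _)
      (PT.ite (PT.decide_eq ht (PT.const 1)) (PT.const _)
        (PT.ite (PT.decide_eq ht (PT.const 2)) (PT.const _)
          (PT.ite (PT.decide_eq ht (PT.const 3)) (PT.const _) (PT.const _))))
  refine h.congr fun a => ?_
  rcases Nat.lt_or_ge (t a) 5 with h5 | h5
  · generalize t a = x at h5
    interval_cases x <;> simp
  · obtain ⟨m, hm⟩ := Nat.exists_eq_add_of_le' h5
    rw [hm, hF, if_neg (by omega), if_neg (by omega), if_neg (by omega), if_neg (by omega)]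

/-- membership test, for any decision procedure -/
lemma PT_mem' [EncInj β] [DecidableEq β] {f : α → β} {l : α → List β} (hf : PT f) (hl : PT l)
    (inst : ∀ a, Decidable (f a ∈ l a)) : PT fun a => @decide (f a ∈ l a) (inst a) :=
  (PT.mem hf hl).congr fun _ => decide_eq_decide.2 Iff.rfl

lemma PT_lst : PT lst := by
  refine PT.append ?_ (PT.const _)
  exact PT.flatMap (f := fun (_ : List (ℕ × ℕ)) (e : ℕ × ℕ) => [e.1, e.2]) (by fun_prop) PT.id

lemma PT_kindOf {E : α → List (ℕ × ℕ)} {i j : α → ℕ} (hE : PT E) (hi : PT i) (hj : PT j) :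
    PT fun a => kindOf (E a) (i a) (j a) := by
  have hL : PT fun a => lst (E a) := PT.comp PT_lst hE
  have hx : PT fun a => (lst (E a)).getD (i a - 1) 0 := by fun_prop
  have hy : PT fun a => (lst (E a)).getD (j a) 0 := by fun_prop
  unfold kindOf
  refine PT.ite (PT.decide_eq hi (PT.const 0)) (PT.const _) ?_
  refine PT.ite (PT.decide_eq hi (by fun_prop)) (PT.const _) ?_
  refine PT.ite (PT.decide_eq hx hy) (PT.const _) ?_
  refine PT.ite ?_ (PT.const _) (PT.const _)
  exact PT.decide_or (PT_mem' (PT.pair hx hy) hE _) (PT_mem' (PT.pair hy hx) hE _)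

lemma ownL_add (m : ℕ) : ownL (m + 5) = ownL 4 := rfl

lemma ndN_add (m : ℕ) : ndN (m + 5) = ndN 4 := rfl

/-- the table of the initial vertices, as a list -/
def srcL (t : ℕ) : List ℕ := (List.range (ndN t)).map (src t)

lemma srcL_add (m : ℕ) : srcL (m + 5) = srcL 4 := rfl

lemma srcL_getD {t e : ℕ} (he : e < ndN t) : (srcL t).getD e 0 = src t e := by
  unfold srcL
  rw [List.getD_eq_getElem _ _ (by simpa using he)]
  simp

lemma PT_blocks : PT fun E => blocks (lst E).length := by
  unfold blocks
  refine PT.product ?_ (PT.rangeLength PT_lst)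
  have h : PT fun E : List (ℕ × ℕ) => List.range (0 :: 0 :: lst E).length :=
    PT.rangeLength (PT.cons (PT.const 0) (PT.cons (PT.const 0) PT_lst))
  exact h

lemma PT_names : PT fun E => names (lst E).length (kindOf E) := by
  unfold names
  refine PT.append ?_ ?_
  · refine PT.flatMap (f := fun (E : List (ℕ × ℕ)) (p : ℕ × ℕ) =>
      (ownL (kindOf E p.1 p.2)).map fun k => (p.1, p.2, k)) ?_ PT_blocks
    refine PT.map (f := fun (q : List (ℕ × ℕ) × (ℕ × ℕ)) (k : ℕ) => (q.2.1, q.2.2, k))
      (by fun_prop) ?_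
    exact PT_byKind (PT_kindOf (by fun_prop) (by fun_prop) (by fun_prop)) ownL ownL_add
  · have := PT_lst
    fun_prop

lemma PT_dartL : PT fun E => dartL (lst E).length (kindOf E) := by
  unfold dartL
  refine PT.flatMap (f := fun (E : List (ℕ × ℕ)) (p : ℕ × ℕ) =>
    (List.range (ndN (kindOf E p.1 p.2))).map fun e => (p.1, p.2, e)) ?_ PT_blocks
  refine PT.map (f := fun (q : List (ℕ × ℕ) × (ℕ × ℕ)) (k : ℕ) => (q.2.1, q.2.2, k))
    (by fun_prop) ?_
  exact PT_byKind (PT_kindOf (by fun_prop) (by fun_prop) (by fun_prop))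
    (fun t => List.range (ndN t)) (fun m => by rw [ndN_add])

lemma PT_phi {e : α → ℕ} (he : PT e) : PT fun a => phi (e a) := by
  unfold phi
  exact PT.ite (PT.decide_eq (by fun_prop) (PT.const 2)) (by fun_prop) (by fun_prop)

lemma PT_gv {n i j r : α → ℕ} (hn : PT n) (hi : PT i) (hj : PT j) (hr : PT r) :
    PT fun a => gv (n a) (i a) (j a) (r a) := by
  unfold gv sc
  refine PT.ite (PT.decide_eq hr (PT.const _)) (by fun_prop) ?_
  refine PT.ite (PT.decide_eq hr (PT.const _)) (by fun_prop) ?_
  refine PT.pair (by fun_prop) (PT.pair ?_ (by fun_prop))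
  refine PT.ite (PT.decide_eq (by fun_prop) (PT.const 1)) ?_ hj
  exact PT.ite (PT.decide_eq (by fun_prop) hn) (PT.const 0) (by fun_prop)

/-- the initial vertex of a dart, by the list -/
def gsL (E : List (ℕ × ℕ)) (d : ℕ × ℕ × ℕ) : ℕ × ℕ × ℕ :=
  gv (lst E).length d.1 d.2.1 ((srcL (kindOf E d.1 d.2.1)).getD d.2.2 0)

lemma PT_gsL {E : α → List (ℕ × ℕ)} {d : α → ℕ × ℕ × ℕ} (hE : PT E) (hd : PT d) :
    PT fun a => gsL (E a) (d a) := by
  have hL : PT fun a => lst (E a) := PT.comp PT_lst hE
  unfold gsL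
  refine PT_gv (by fun_prop) (by fun_prop) (by fun_prop) ?_
  refine PT.getD ?_ (by fun_prop) (PT.const 0)
  exact PT_byKind (PT_kindOf hE (by fun_prop) (by fun_prop)) srcL srcL_add

lemma PT_edgeL : PT fun E => edgeL (lst E).length (kindOf E) := by
  have h := PT.map (f := fun (E : List (ℕ × ℕ)) (d : ℕ × ℕ × ℕ) =>
      (gsL E d, gsL E (d.1, d.2.1, phi d.2.2)))
    (PT.pair (PT_gsL (by fun_prop) (by fun_prop)) (PT_gsL (by fun_prop)
      (PT.pair (by fun_prop) (PT.pair (by fun_prop) (PT_phi (by fun_prop)))))) PT_dartL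
  refine h.congr fun E => ?_
  unfold edgeL
  refine List.map_congr_left ?_
  intro d hd
  rw [mem_dartL] at hd
  have hd' := gp_valid (good_kindOf E) hd
  obtain ⟨h1, h2, h3⟩ := hd
  obtain ⟨h1', h2', h3'⟩ := hd'
  have e1 : gsL E d = gs (lst E).length (kindOf E) d := by
    unfold gsL gs; rw [srcL_getD h3]
  have e2 : gsL E (gp d) = gs (lst E).length (kindOf E) (gp d) := by
    unfold gsL gs; rw [srcL_getD h3']
  rw [← e1, ← e2]
  rfl

/-- The code of a graph given by a list of vertices and a list of pairs of adjacent vertices. -/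
theorem PT_encodeGraph {V : Type} [Enc V] [EncInj V] {N : α → List V} {Ed : α → List (V × V)}
    (hN : PT N) (hE : PT Ed) (G : ∀ a, SimpleGraph (Fin (N a).length))
    (hG : ∀ a u v, (G a).Adj u v ↔ ((N a)[u], (N a)[v]) ∈ Ed a) :
    PT fun a => encodeGraph ⟨(N a).length, G a⟩ := by
  classical
  have h1 : PT fun a => (N a).map fun _ => true :=
    PT.map (f := fun _ _ => true) (PT.const _) hN
  have h2 : PT fun a => (N a).flatMap fun x => (N a).map fun y => decide ((x, y) ∈ Ed a) := by
    refine PT.flatMap (f := fun (a : α) (x : V) =>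
      (N a).map fun y => decide ((x, y) ∈ Ed a)) ?_ hN
    refine PT.map (f := fun (q : α × V) (y : V) => decide ((q.2, y) ∈ Ed q.1)) ?_ ?_
    · exact PT_mem' (by fun_prop) (PT.comp hE (f := fun p : (α × V) × V => p.1.1) (by fun_prop)) _
    · exact PT.comp hN (f := fun p : α × V => p.1) (by fun_prop)
  have h3 := PT.append h1 (PT.cons (PT.const false) h2)
  refine h3.congr fun a => ?_
  unfold encodeGraph
  have key : ∀ {γ δ : Type} (l : List γ) (f : γ → δ), List.ofFn (fun u : Fin l.length => f l[u]) =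
      l.map f := fun l f => List.ofFn_getElem_eq_map l f
  have e1 : ∀ x : V, (N a).map (fun y => decide ((x, y) ∈ Ed a)) =
      List.ofFn (fun v : Fin (N a).length => decide ((x, (N a)[v]) ∈ Ed a)) := fun x =>
    (key (N a) (fun y => decide ((x, y) ∈ Ed a))).symm
  have e2 : (N a).flatMap (fun x => (N a).map fun y => decide ((x, y) ∈ Ed a)) =
      (List.ofFn fun u : Fin (N a).length =>
        List.ofFn fun v : Fin (N a).length => decide (((N a)[u], (N a)[v]) ∈ Ed a)).flatten := by
    rw [List.flatMap_def]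
    simp only [e1]
    rw [← key (N a) (fun x => List.ofFn (fun v : Fin (N a).length =>
      decide ((x, (N a)[v]) ∈ Ed a)))]
  have e3 : ∀ u v : Fin (N a).length, decide (((N a)[u], (N a)[v]) ∈ Ed a) =
      @decide ((G a).Adj u v) (Classical.propDecidable _) := fun u v =>
    decide_eq_decide.2 (hG a u v).symm
  rw [e2, List.map_const']
  simp only [e3]

/-- The grid graph of a list of edges. -/
def gridOf (E : List (ℕ × ℕ)) : Σ n : ℕ, SimpleGraph (Fin n) :=
  ⟨(names (lst E).length (kindOf E)).length, gridGraph (good_kindOf E)⟩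

/-- The code of the grid graph of a list of edges is computed in polynomial time. -/
theorem PT_encode_gridOf : PT fun E => encodeGraph (gridOf E) :=
  PT_encodeGraph PT_names PT_edgeL (fun E => gridGraph (good_kindOf E)) (fun _ _ _ => Iff.rfl)

end

end Pool.Agent.OOD
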