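import Pool.Agent.Lib.OOD.Encode
import Pool.Agent.Lib.PolyTime.PairInput
import Pool.Agent.Lib.PolyTime.Subsets
import Pool.Agent.Lib.PolyTime.Reach
import Pool.Agent.Lib.KAnnih.Parse

/-!
# Reading the string of a graph in polynomial time
-/

set_option autoImplicit false

namespace Pool.Agent.OOD

open Pool.Agent.PolyTime Pool.Agent.Lib.CookLevin

/-- the number of vertices of the graph coded by a word -/
def gn (w : List Bool) : ℕ := (w.takeWhile fun b => b).length

/-- the adjacency matrix of the graph coded by a word -/
def gmat (w : List Bool) : List Bool := w.drop (gn w + 1)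

/-- adjacency in the graph coded by a word -/
def gadj (w : List Bool) (u v : ℕ) : Bool := bit (gmat w) (u * gn w + v)

/-- the pairs of vertices of the graph coded by a word -/
def gpairs (w : List Bool) : List (ℕ × ℕ) := List.range (gn w) ×ˢ List.range (gn w)

/-- is the word the code of a graph? -/
def isGraph (w : List Bool) : Bool :=
  decide (w.length = gn w + 1 + gn w * gn w) &&
    (gpairs w).all fun e => bif gadj w e.1 e.2 then gadj w e.2 e.1 && !decide (e.1 = e.2) else true

lemma PT_gn : PT gn := PT.length (KAnnih.PTlead PT.id)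

lemma PT_gmat : PT gmat := PT.drop PT.id (PT.succ PT_gn)

lemma PT_gadj {α : Type*} [Enc α] {w : α → List Bool} {u v : α → ℕ} (hw : PT w) (hu : PT u)
    (hv : PT v) : PT fun a => gadj (w a) (u a) (v a) :=
  PT.bit (PT_gmat.comp hw) (PT.add (PT.mul hu (PT_gn.comp hw)) hv)

lemma PT_grange {α : Type*} [Enc α] {w : α → List Bool} (hw : PT w) :
    PT fun a => List.range (gn (w a)) :=
  PT.rangeLength ((KAnnih.PTlead hw))

lemma PT_gpairs {α : Type*} [Enc α] {w : α → List Bool} (hw : PT w) :
    PT fun a => gpairs (w a) := PT.product (PT_grange hw) (PT_grange hw)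

lemma PT_isGraph : PT isGraph := by
  refine PT.and (PT.decide_eq (PT.length PT.id) (PT.add (PT.succ PT_gn) (PT.mul PT_gn PT_gn)))
    (PT.all (f := fun (w : List Bool) (e : ℕ × ℕ) =>
      bif gadj w e.1 e.2 then gadj w e.2 e.1 && !decide (e.1 = e.2) else true) ?_ (PT_gpairs PT.id))
  refine PT.bif (PT_gadj PT.fst' (by fun_prop) (by fun_prop)) (PT.and
    (PT_gadj PT.fst' (by fun_prop) (by fun_prop)) (PT.not (PT.decide_eq (by fun_prop)
      (by fun_prop)))) (PT.const true)

section

open Classical

variable (G : Σ n, SimpleGraph (Fin n))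

lemma gn_encodeGraph : gn (encodeGraph G) = G.1 := by
  rw [gn, encodeGraph, List.takeWhile_append_of_pos]
  · simp
  · intro b hb
    exact List.eq_of_mem_replicate hb

lemma gmat_encodeGraph : gmat (encodeGraph G) =
    (List.ofFn fun u => List.ofFn fun v => decide (G.2.Adj u v)).flatten := by
  rw [gmat, gn_encodeGraph, encodeGraph]
  have e : G.1 + 1 = (List.replicate G.1 true).length + 1 := by simp
  rw [e, ← List.drop_drop, List.drop_left]
  rfl

lemma gadj_encodeGraph (u v : Fin G.1) : gadj (encodeGraph G) u v = decide (G.2.Adj u v) := by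
  rw [gadj, gmat_encodeGraph, gn_encodeGraph]
  have h := KAnnih.drop_take_flatten (n := G.1)
    (List.ofFn fun u => List.ofFn fun v => decide (G.2.Adj u v)) [] (by
      intro l hl
      rw [List.mem_ofFn] at hl
      obtain ⟨u, rfl⟩ := hl
      simp) u.1 (by simp)
  rw [List.append_nil, List.getElem_ofFn] at h
  have h2 : bit ((((List.ofFn fun u => List.ofFn fun v => decide (G.2.Adj u v)).flatten).drop
      (u.1 * G.1)).take G.1) v.1 = decide (G.2.Adj u v) := by
    rw [h, bit_eq_getElem (by simp)]
    simp
  rw [← h2, bit, bit, List.getD_eq_getElem?_getD, List.getD_eq_getElem?_getD,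
    List.getElem?_take_of_lt v.2, List.getElem?_drop]

lemma isGraph_encodeGraph : isGraph (encodeGraph G) = true := by
  rw [isGraph, Bool.and_eq_true]
  constructor
  · rw [gn_encodeGraph, decide_eq_true_eq, encodeGraph, List.length_append, List.length_replicate,
      List.length_cons]
    have : (List.ofFn fun u => List.ofFn fun v => decide (G.2.Adj u v)).flatten.length =
        G.1 * G.1 := by
      have e : (List.length ∘ fun u : Fin G.1 => List.ofFn fun v => decide (G.2.Adj u v)) =
          fun _ => G.1 := by
        funext u
        simp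
      rw [List.length_flatten, List.map_ofFn, e]
      simp
    rw [this]
    ring
  · rw [List.all_eq_true]
    rintro ⟨u, v⟩ h
    rw [gpairs, gn_encodeGraph, List.mem_product, List.mem_range, List.mem_range] at h
    have h1 := gadj_encodeGraph G ⟨u, h.1⟩ ⟨v, h.2⟩
    have h2 := gadj_encodeGraph G ⟨v, h.2⟩ ⟨u, h.1⟩
    simp only at h1 h2
    show (bif gadj (encodeGraph G) u v then gadj (encodeGraph G) v u && !decide (u = v)
      else true) = true
    rw [h1, h2]
    by_cases h3 : G.2.Adj ⟨u, h.1⟩ ⟨v, h.2⟩
    · have h4 : ¬ u = v := by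
        rintro rfl
        exact G.2.loopless.irrefl _ h3
      simp [h3, h3.symm, h4]
    · simp [h3]

end

/-- the graph coded by a word -/
def graphOf (w : List Bool) (h : isGraph w = true) : SimpleGraph (Fin (gn w)) where
  Adj u v := gadj w u v = true
  symm := ⟨by
    intro u v h1
    rw [isGraph, Bool.and_eq_true, List.all_eq_true] at h
    have h2 := h.2 (u.1, v.1) (by
      rw [gpairs, List.mem_product, List.mem_range, List.mem_range]; exact ⟨u.2, v.2⟩)
    simp only [h1, cond_true, Bool.and_eq_true] at h2
    exact h2.1⟩
  loopless := ⟨by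
    intro u h1
    rw [isGraph, Bool.and_eq_true, List.all_eq_true] at h
    have h2 := h.2 (u.1, u.1) (by
      rw [gpairs, List.mem_product, List.mem_range]; exact ⟨u.2, u.2⟩)
    simp [h1] at h2⟩

lemma eq_replicate_takeWhile (w : List Bool) (h : gn w < w.length) :
    w = List.replicate (gn w) true ++ false :: gmat w := by
  induction w with
  | nil => simp at h
  | cons b w ih =>
    cases b with
    | false => simp [gn, gmat]
    | true =>
      have e : gn (true :: w) = gn w + 1 := by simp [gn]
      rw [e, List.length_cons] at h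
      have e2 : gmat (true :: w) = gmat w := by
        rw [gmat, e, gmat, List.drop_succ_cons]
      rw [e, e2, List.replicate_succ, List.cons_append, ← ih (by omega)]

open Classical in
lemma encodeGraph_graphOf (w : List Bool) (h : isGraph w = true) :
    encodeGraph ⟨gn w, graphOf w h⟩ = w := by
  have h0 := h
  rw [isGraph, Bool.and_eq_true, decide_eq_true_eq] at h
  have hl : (gmat w).length = gn w * gn w := by
    rw [gmat, List.length_drop]
    omega
  have h1 := eq_replicate_takeWhile w (by omega)
  have h2 : gmat w = (List.ofFn fun u : Fin (gn w) => List.ofFn fun v : Fin (gn w) =>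
      decide ((graphOf w h0).Adj u v)).flatten := by
    have h3 : gmat w = List.ofFn fun i : Fin (gn w * gn w) => bit (gmat w) i.1 := by
      apply List.ext_getElem
      · simp [hl]
      · intro i h4 h5
        rw [List.getElem_ofFn, bit_eq_getElem h4]
    rw [List.ofFn_mul] at h3
    refine h3.trans ?_
    congr 2
    funext u
    congr 1
    funext v
    rw [Bool.eq_iff_iff, decide_eq_true_eq]
    exact Iff.rfl
  rw [encodeGraph]
  show List.replicate (gn w) true ++ false :: (List.ofFn fun u : Fin (gn w) =>
    List.ofFn fun v : Fin (gn w) => decide ((graphOf w h0).Adj u v)).flatten = w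
  rw [← h2]
  exact h1.symm

end Pool.Agent.OOD
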