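import Pool.Agent.Lib.OOD.Local
import Pool.Agent.Lib.CookLevin.Planar

/-!
# The grid graph

`n` rows and `n` columns (cyclic) of blocks, a row of wedges above (`i = 0`) and below (`i = n + 1`);
`τ i j` is the kind of the block `(i, j)`.
-/

set_option autoImplicit false

namespace Pool.Agent.OOD

/-! ### Unpacking the local checks -/

theorem chkAll_all : ∀ τ < 5, chkAll τ = true := by
  intro τ h
  interval_cases τ
  · exact chkAll_0
  · exact chkAll_1
  · exact chkAll_2
  · exact chkAll_3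
  · exact chkAll_4

section loc

variable {τ e : ℕ}

lemma loc1 (hτ : τ < 5) (he : e < ndN τ) : chk1 τ e = true := by
  have := chkAll_all τ hτ
  simp only [chkAll, Bool.and_eq_true, allD_iff] at this
  exact this.1.1.1.1.1.1.1.1 e he

lemma loc2 (hτ : τ < 5) (he : e < ndN τ) : chk2 τ e = true := by
  have := chkAll_all τ hτ
  simp only [chkAll, Bool.and_eq_true, allD_iff] at this
  exact this.1.1.1.1.1.1.1.2 e he

lemma locE (hτ : τ < 5) (he : e < ndN τ) : chkE τ e = true := by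
  have := chkAll_all τ hτ
  simp only [chkAll, Bool.and_eq_true, allD_iff] at this
  exact this.1.1.1.1.1.1.2 e he

lemma loc3 (hτ : τ < 5) (he : e < ndN τ) : chk3 τ e = true := by
  have := chkAll_all τ hτ
  simp only [chkAll, Bool.and_eq_true, allD_iff] at this
  exact this.1.1.1.1.1.2 e he

lemma loc4 (hτ : τ < 5) (he : e < ndN τ) : chk4 τ e = true := by
  have := chkAll_all τ hτ
  simp only [chkAll, Bool.and_eq_true, allD_iff] at this
  exact this.1.1.1.1.2 e he

lemma loc5 (hτ : τ < 5) {k : ℕ} (hk : k < 255) : chk5 τ k = true := by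
  have := chkAll_all τ hτ
  simp only [chkAll, Bool.and_eq_true, allD_iff, List.all_eq_true, List.mem_range] at this
  exact this.1.1.1.2 k hk

lemma loc5' (hτ : τ < 5) (h1 : τ ≠ 1) : chk5' τ = true := by
  have := chkAll_all τ hτ
  simp only [chkAll, Bool.and_eq_true, allD_iff] at this
  have h := this.1.1.2
  simpa [h1] using h

lemma loc7 (hτ : τ < 5) : chk7 τ = true := by
  have := chkAll_all τ hτ
  simp only [chkAll, Bool.and_eq_true, allD_iff] at this
  exact this.1.2

lemma locN (hτ : τ < 5) : chkN τ = true := chkN_all τ hτ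

lemma loc6 (hτ : τ < 5) {x y : ℕ} (hx : x < 3) (hy : y < 3) (hxy : okxy τ x y = true)
    (he : e < ndN τ) : chk6 τ x y e = true :=
  allD_iff.1 (chk6_all τ hτ x hx y hy hxy) e he

lemma locH {τ' : ℕ} (hτ : τ < 5) (hτ' : τ' < 5) (h : compH τ τ' = true) (he : e < ndN τ) :
    chkH τ τ' e = true := by
  have := chkH_all τ hτ τ' hτ' h
  rw [Bool.and_eq_true, allD_iff] at this
  exact this.1 e he

lemma locH' {τ' : ℕ} (hτ : τ < 5) (hτ' : τ' < 5) (h : compH τ τ' = true) (he : e < ndN τ') :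
    chkH' τ τ' e = true := by
  have := chkH_all τ hτ τ' hτ' h
  rw [Bool.and_eq_true, allD_iff, allD_iff] at this
  exact this.2 e he

lemma locV {τ' : ℕ} (hτ : τ < 5) (hτ' : τ' < 5) (h : compV τ τ' = true) (he : e < ndN τ) :
    chkV τ τ' e = true := by
  have := chkV_all τ hτ τ' hτ' h
  rw [Bool.and_eq_true, allD_iff] at this
  exact this.1 e he

lemma locV' {τ' : ℕ} (hτ : τ < 5) (hτ' : τ' < 5) (h : compV τ τ' = true) (he : e < ndN τ') :
    chkV' τ τ' e = true := by
  have := chkV_all τ hτ τ' hτ' h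
  rw [Bool.and_eq_true, allD_iff, allD_iff] at this
  exact this.2 e he

lemma nd_mod (hτ : τ < 5) : ndN τ % 3 = 0 := by
  have := locN hτ
  simp only [chkN, Bool.and_eq_true, decide_eq_true_eq] at this
  exact this.1

lemma phi_lt (hτ : τ < 5) (he : e < ndN τ) : phi e < ndN τ := by
  have := nd_mod hτ
  unfold phi
  split_ifs <;> omega

lemma phi3 (e : ℕ) : phi (phi (phi e)) = e := by
  unfold phi
  split_ifs <;> omega

lemma own_lt {τ k : ℕ} (h : own τ k = true) : k < 255 := by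
  by_contra hk
  push Not at hk
  unfold own at h
  have h1 : ownN τ < 2 ^ k := by
    refine lt_of_lt_of_le ?_ (Nat.pow_le_pow_right (by norm_num) hk)
    unfold ownN
    split <;> norm_num
  rw [Nat.testBit_lt_two_pow h1] at h
  simp at h

end loc

/-! ### The grid -/

/-- next column -/
def sc (n j : ℕ) : ℕ := if j + 1 = n then 0 else j + 1
/-- previous column -/
def pc (n j : ℕ) : ℕ := if j = 0 then n - 1 else j - 1

/-- The vertex with reference `r` in the block `(i, j)`. -/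
def gv (n i j r : ℕ) : ℕ × ℕ × ℕ :=
  if r = 1020 then (n + 2, 0, 0) else if r = 1021 then (n + 2, 0, 1)
  else (i + r % 2, (if (r / 2) % 2 = 1 then sc n j else j), r / 4)

/-- the kinds of blocks fit together -/
structure Good (n : ℕ) (τ : ℕ → ℕ → ℕ) : Prop where
  hn : 3 ≤ n
  top : ∀ j, τ 0 j = 0
  bot : ∀ j, τ (n + 1) j = 1
  mid : ∀ i j, 1 ≤ i → i ≤ n → 2 ≤ τ i j ∧ τ i j < 5

/-- valid darts -/
def DV (n : ℕ) (τ : ℕ → ℕ → ℕ) (d : ℕ × ℕ × ℕ) : Prop :=
  d.1 < n + 2 ∧ d.2.1 < n ∧ d.2.2 < ndN (τ d.1 d.2.1)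

/-- initial vertex -/
def gs (n : ℕ) (τ : ℕ → ℕ → ℕ) (d : ℕ × ℕ × ℕ) : ℕ × ℕ × ℕ :=
  gv n d.1 d.2.1 (src (τ d.1 d.2.1) d.2.2)

/-- next dart in the triangle -/
def gp (d : ℕ × ℕ × ℕ) : ℕ × ℕ × ℕ := (d.1, d.2.1, phi d.2.2)

/-- reversed dart -/
def ga (n : ℕ) (τ : ℕ → ℕ → ℕ) (d : ℕ × ℕ × ℕ) : ℕ × ℕ × ℕ :=
  let t := τ d.1 d.2.1
  let e := rev t d.2.2
  if dir t d.2.2 = 0 then (d.1, d.2.1, e)
  else if dir t d.2.2 = 1 then (d.1, sc n d.2.1, e)
  else if dir t d.2.2 = 2 then (d.1, pc n d.2.1, e)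
  else if dir t d.2.2 = 3 then (d.1 + 1, d.2.1, e)
  else (d.1 - 1, d.2.1, e)

section

variable {n : ℕ} {τ : ℕ → ℕ → ℕ}

lemma sc_lt {j : ℕ} (hj : j < n) : sc n j < n := by unfold sc; split_ifs <;> omega
lemma pc_lt {j : ℕ} (hj : j < n) : pc n j < n := by unfold pc; split_ifs <;> omega
lemma sc_pc {j : ℕ} (hj : j < n) : sc n (pc n j) = j := by
  unfold sc pc
  by_cases h : j = 0
  · rw [if_pos h, if_pos (by omega), h]
  · rw [if_neg h, if_neg (by omega)]; omega
lemma pc_sc {j : ℕ} (hj : j < n) : pc n (sc n j) = j := by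
  unfold sc pc
  by_cases h : j + 1 = n
  · rw [if_pos h, if_pos rfl]; omega
  · rw [if_neg h, if_neg (by omega)]; omega

lemma gv_lt {i j r : ℕ} (h : r < 1020) :
    gv n i j r = (i + r % 2, (if (r / 2) % 2 = 1 then sc n j else j), r / 4) := by
  unfold gv
  rw [if_neg (by omega), if_neg (by omega)]

lemma gv_eqH {i j r r' : ℕ} (h : eqH r r' = true) : gv n i j r = gv n i (sc n j) r' := by
  simp only [eqH, Bool.or_eq_true, Bool.and_eq_true, decide_eq_true_eq] at h
  rcases h with ⟨⟨h1, h2⟩, h3⟩ | ⟨⟨h1, h2⟩, h3⟩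
  · have e1 : (r / 2) % 2 = 1 := by omega
    have e2 : r % 2 = r' % 2 := by omega
    have e3 : r / 4 = r' / 4 := by omega
    rw [gv_lt h3, gv_lt (by omega), if_pos e1, if_neg (by omega), e2, e3]
  · subst h1
    unfold gv
    by_cases h : r = 1020
    · simp [h]
    · have h' : r = 1021 := by omega
      simp [h']

lemma gv_eqV {i j r r' : ℕ} (h : eqV r r' = true) : gv n i j r = gv n (i + 1) j r' := by
  simp only [eqV, Bool.and_eq_true, decide_eq_true_eq] at h
  obtain ⟨⟨h1, h2⟩, h3⟩ := h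
  have e1 : (r / 2) % 2 = (r' / 2) % 2 := by omega
  have e2 : i + r % 2 = i + 1 + r' % 2 := by omega
  have e3 : r / 4 = r' / 4 := by omega
  rw [gv_lt h3, gv_lt (by omega), e1, e2, e3]

namespace Good

variable (hg : Good n τ)
include hg

lemma lt5 {i : ℕ} (j : ℕ) (hi : i < n + 2) : τ i j < 5 := by
  rcases Nat.eq_zero_or_pos i with rfl | h
  · rw [hg.top]; norm_num
  · by_cases h2 : i = n + 1
    · rw [h2, hg.bot]; norm_num
    · exact (hg.mid i j h (by omega)).2

lemma compH' {i : ℕ} (j j' : ℕ) (hi : i < n + 2) : compH (τ i j) (τ i j') = true := by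
  rcases Nat.eq_zero_or_pos i with rfl | h
  · rw [hg.top, hg.top]; rfl
  · by_cases h2 : i = n + 1
    · rw [h2, hg.bot, hg.bot]; rfl
    · have h3 := (hg.mid i j h (by omega)).1
      have h4 := (hg.mid i j' h (by omega)).1
      simp [compH, h3, h4]

lemma compV' {i : ℕ} (j : ℕ) (hi : i + 1 < n + 2) : compV (τ i j) (τ (i + 1) j) = true := by
  have hn := hg.hn
  rcases Nat.eq_zero_or_pos i with rfl | h
  · rw [hg.top]
    have h4 := (hg.mid (0 + 1) j (by omega) (by omega)).1
    simp at h4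
    simp [compV, h4]
  · have h3 := (hg.mid i j h (by omega)).1
    by_cases h2 : i + 1 = n + 1
    · rw [h2, hg.bot]; simp [compV, h3]
    · have h4 := (hg.mid (i + 1) j (by omega) (by omega)).1
      simp [compV, h3, h4]

lemma tau_eq_zero {i j : ℕ} (hi : i < n + 2) (h : τ i j = 0) : i = 0 := by
  by_contra h0
  by_cases h2 : i = n + 1
  · rw [h2, hg.bot] at h; omega
  · have := (hg.mid i j (by omega) (by omega)).1; omega

lemma tau_eq_one {i j : ℕ} (hi : i < n + 2) (h : τ i j = 1) : i = n + 1 := by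
  by_contra h0
  by_cases h2 : i = 0
  · rw [h2, hg.top] at h; omega
  · have := (hg.mid i j (by omega) (by omega)).1; omega

/-- The main properties of the reversal. -/
theorem ga_spec {d : ℕ × ℕ × ℕ} (hd : DV n τ d) :
    DV n τ (ga n τ d) ∧ ga n τ (ga n τ d) = d ∧ gs n τ (ga n τ d) = gs n τ (gp d) ∧
      gs n τ (gp (ga n τ d)) = gs n τ d := by
  obtain ⟨i, j, e⟩ := d
  obtain ⟨hi, hj, he⟩ := hd
  simp only at hi hj he
  have hτ := hg.lt5 j hi
  have h1 := loc1 hτ he
  have hE := locE hτ he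
  have h2 := loc2 hτ he
  simp only [chk1, Bool.and_eq_true, Bool.or_eq_true, Bool.not_eq_true', decide_eq_true_eq,
    decide_eq_false_iff_not] at h1
  simp only [chkE, Bool.and_eq_true, Bool.or_eq_true, Bool.not_eq_true', decide_eq_true_eq,
    decide_eq_false_iff_not] at hE
  by_cases d0 : dir (τ i j) e = 0
  · obtain ⟨-, h⟩ := h1
    rcases h with h | ⟨⟨⟨⟨h3, h4⟩, h5⟩, h6⟩, h7⟩
    · exact absurd d0 h
    have hga : ga n τ (i, j, e) = (i, j, rev (τ i j) e) := by simp [ga, d0]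
    rw [hga]
    refine ⟨⟨hi, hj, h3⟩, ?_, ?_, ?_⟩
    · simp only [ga, h4, if_true, h5]
    · simp only [gs, gp, h6, tgt]
    · have : src (τ i j) (phi (rev (τ i j) e)) = src (τ i j) e := h7
      simp only [gs, gp, this]
  by_cases d1 : dir (τ i j) e = 1
  · have hj' := sc_lt hj
    have h := locH hτ (hg.lt5 (sc n j) hi) (hg.compH' j (sc n j) hi) he
    simp only [chkH, Bool.and_eq_true, Bool.or_eq_true, Bool.not_eq_true', decide_eq_true_eq,
      decide_eq_false_iff_not] at h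
    rcases h with h | ⟨⟨⟨⟨h3, h4⟩, h5⟩, h6⟩, h7⟩
    · exact absurd d1 h
    have hga : ga n τ (i, j, e) = (i, sc n j, rev (τ i j) e) := by simp [ga, d1]
    rw [hga]
    refine ⟨⟨hi, hj', h3⟩, ?_, ?_, ?_⟩
    · simp [ga, h4, h5, pc_sc hj]
    · exact (gv_eqH h6).symm
    · exact (gv_eqH h7).symm
  by_cases d2 : dir (τ i j) e = 2
  · have hj' := pc_lt hj
    have h := locH' (hg.lt5 (pc n j) hi) hτ (hg.compH' (pc n j) j hi) he
    simp only [chkH', Bool.and_eq_true, Bool.or_eq_true, Bool.not_eq_true', decide_eq_true_eq,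
      decide_eq_false_iff_not] at h
    rcases h with h | ⟨⟨h3, h4⟩, h5⟩
    · exact absurd d2 h
    have h' := locH (hg.lt5 (pc n j) hi) hτ (hg.compH' (pc n j) j hi) h3
    simp only [chkH, Bool.and_eq_true, Bool.or_eq_true, Bool.not_eq_true', decide_eq_true_eq,
      decide_eq_false_iff_not] at h'
    rcases h' with h' | ⟨⟨⟨⟨-, -⟩, -⟩, h6⟩, h7⟩
    · exact absurd h4 h'
    rw [h5] at h6 h7
    have hga : ga n τ (i, j, e) = (i, pc n j, rev (τ i j) e) := by simp [ga, d2]
    rw [hga]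
    refine ⟨⟨hi, hj', h3⟩, ?_, ?_, ?_⟩
    · simp [ga, h4, h5, sc_pc hj]
    · have := gv_eqH (n := n) (i := i) (j := pc n j) h7
      rw [sc_pc hj] at this
      exact this
    · have := gv_eqH (n := n) (i := i) (j := pc n j) h6
      rw [sc_pc hj] at this
      exact this
  by_cases d3 : dir (τ i j) e = 3
  · have hi' : i + 1 < n + 2 := by
      rcases hE.2 with h | h
      · have : i ≠ n + 1 := fun h' => h (by rw [h', hg.bot])
        omega
      · exact absurd d3 h
    have h := locV hτ (hg.lt5 j hi') (hg.compV' j hi') he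
    simp only [chkV, Bool.and_eq_true, Bool.or_eq_true, Bool.not_eq_true', decide_eq_true_eq,
      decide_eq_false_iff_not] at h
    rcases h with h | ⟨⟨⟨⟨h3, h4⟩, h5⟩, h6⟩, h7⟩
    · exact absurd d3 h
    have hga : ga n τ (i, j, e) = (i + 1, j, rev (τ i j) e) := by simp [ga, d3]
    rw [hga]
    refine ⟨⟨hi', hj, h3⟩, ?_, ?_, ?_⟩
    · simp [ga, h4, h5]
    · exact (gv_eqV h6).symm
    · exact (gv_eqV h7).symm
  · have d4 : dir (τ i j) e = 4 := by
      simp only [chk2, Bool.and_eq_true, Bool.or_eq_true, Bool.not_eq_true', decide_eq_true_eq,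
        decide_eq_false_iff_not] at h2
      rcases h2.2 with h | h
      · exact absurd h d0
      · have := h.1.1.1.1.2; omega
    have hi0 : i ≠ 0 := by
      intro h0
      rcases hE.1 with h | h
      · exact h (by rw [h0, hg.top])
      · exact absurd d4 h
    obtain ⟨i', rfl⟩ : ∃ i', i = i' + 1 := ⟨i - 1, by omega⟩
    have h := locV' (hg.lt5 j (by omega)) hτ (hg.compV' j hi) he
    simp only [chkV', Bool.and_eq_true, Bool.or_eq_true, Bool.not_eq_true', decide_eq_true_eq,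
      decide_eq_false_iff_not] at h
    rcases h with h | ⟨⟨h3, h4⟩, h5⟩
    · exact absurd d4 h
    have h' := locV (hg.lt5 j (by omega)) hτ (hg.compV' j hi) h3
    simp only [chkV, Bool.and_eq_true, Bool.or_eq_true, Bool.not_eq_true', decide_eq_true_eq,
      decide_eq_false_iff_not] at h'
    rcases h' with h' | ⟨⟨⟨⟨-, -⟩, -⟩, h6⟩, h7⟩
    · exact absurd h4 h'
    rw [h5] at h6 h7
    have hga : ga n τ (i' + 1, j, e) = (i', j, rev (τ (i' + 1) j) e) := by simp [ga, d4]
    rw [hga]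
    refine ⟨⟨by simp only; omega, hj, h3⟩, ?_, ?_, ?_⟩
    · simp [ga, h4, h5]
    · exact gv_eqV h7
    · exact gv_eqV h6

end Good

end

end Pool.Agent.OOD
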