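import Pool.Agent.Lib.OOD.Graph
import Pool.Agent.Lib.OOD.GraphParse

/-!
# Partitions into two independent sets and a forest: the problem is in NP
-/

set_option autoImplicit false

namespace Pool.Agent.OOD

open Pool.Agent.PolyTime Pool.Agent.Lib.CookLevin Relation

/-- the words of graphs whose vertices can be partitioned into two independent sets and a set
inducing a forest -/
def PartLang (w : Word) : Prop :=
  ∃ G : (Σ n, SimpleGraph (Fin n)), w = encodeGraph G ∧ HasPart G.2

/-! ### The test for forests -/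

/-- the edges of `E` different from `e` -/
def without (E : List (ℕ × ℕ)) (e : ℕ × ℕ) : List (ℕ × ℕ) :=
  E.filter fun f => !(decide (f = e) || decide (f = (e.2, e.1)))

/-- no edge of `E` lies on a cycle -/
def forestE (E : List (ℕ × ℕ)) : Bool :=
  E.all fun e => !decide (e.2 ∈ reach (without E e) e.1)

lemma PT_forestE {α : Type*} [Enc α] {E : α → List (ℕ × ℕ)} (hE : PT E) :
    PT fun a => forestE (E a) := by
  refine PT.all (f := fun (a : α) (e : ℕ × ℕ) => !decide (e.2 ∈ reach (without (E a) e) e.1)) ?_ hE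
  refine PT.not (PT.decide_reach ?_ (by fun_prop) (by fun_prop))
  refine PT.filter (f := fun (p : α × ℕ × ℕ) (f : ℕ × ℕ) =>
    !(decide (f = p.2) || decide (f = (p.2.2, p.2.1)))) ?_ (hE.comp PT.fst')
  exact PT.not (PT.or (PT.decide_eq (by fun_prop) (by fun_prop))
    (PT.decide_eq (by fun_prop) (by fun_prop)))

lemma mem_without {E : List (ℕ × ℕ)} {e : ℕ × ℕ} {a b : ℕ} :
    (a, b) ∈ without E e ↔ (a, b) ∈ E ∧ ¬ (a, b) = e ∧ ¬ (a, b) = (e.2, e.1) := by
  simp only [without, List.mem_filter, Bool.not_eq_true', Bool.or_eq_false_iff,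
    decide_eq_false_iff_not]

/-- The test is correct. -/
theorem forestE_iff {n : ℕ} (G : SimpleGraph (Fin n)) (s : Set (Fin n)) (E : List (ℕ × ℕ))
    (hE : ∀ a b : ℕ, (a, b) ∈ E ↔ ∃ (ha : a < n) (hb : b < n),
      G.Adj ⟨a, ha⟩ ⟨b, hb⟩ ∧ (⟨a, ha⟩ : Fin n) ∈ s ∧ (⟨b, hb⟩ : Fin n) ∈ s) :
    forestE E = true ↔ (G.induce s).IsAcyclic := by
  -- adjacency after deletion of an edge
  have key : ∀ (u v x y : s), ((G.induce s).deleteEdges {s(u, v)}).Adj x y ↔
      (((x : Fin n) : ℕ), ((y : Fin n) : ℕ)) ∈ without E ((u : Fin n), (v : Fin n)) := by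
    intro u v x y
    rw [mem_without, hE, SimpleGraph.deleteEdges_adj]
    simp only [SimpleGraph.comap_adj, Function.Embedding.subtype_apply, Set.mem_singleton_iff,
      Sym2.eq_iff, Prod.mk.injEq]
    constructor
    · rintro ⟨h1, h2⟩
      refine ⟨⟨x.1.2, y.1.2, h1, x.2, y.2⟩, ?_, ?_⟩
      · rintro ⟨h3, h4⟩
        exact h2 (Or.inl ⟨Subtype.ext (Fin.ext h3), Subtype.ext (Fin.ext h4)⟩)
      · rintro ⟨h3, h4⟩
        exact h2 (Or.inr ⟨Subtype.ext (Fin.ext h3), Subtype.ext (Fin.ext h4)⟩)
    · rintro ⟨⟨_, _, h1, _, _⟩, h2, h3⟩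
      refine ⟨h1, ?_⟩
      rintro (⟨rfl, rfl⟩ | ⟨rfl, rfl⟩)
      · exact h2 ⟨rfl, rfl⟩
      · exact h3 ⟨rfl, rfl⟩
  -- reachability
  have key2 : ∀ (u v x y : s), ((G.induce s).deleteEdges {s(u, v)}).Reachable x y ↔
      ((y : Fin n) : ℕ) ∈ reach (without E ((u : Fin n), (v : Fin n))) ((x : Fin n) : ℕ) := by
    intro u v x y
    rw [SimpleGraph.reachable_iff_reflTransGen, mem_reach]
    constructor
    · intro h
      have h1 : ∀ z : s, ReflTransGen ((G.induce s).deleteEdges {s(u, v)}).Adj x z →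
          ReflTransGen (fun a b => (a, b) ∈ without E (((u : Fin n) : ℕ), ((v : Fin n) : ℕ)))
            ((x : Fin n) : ℕ) ((z : Fin n) : ℕ) := by
        intro z hz
        induction hz with
        | refl => exact .refl
        | tail _ hbc ih => exact ih.tail ((key u v _ _).1 hbc)
      exact h1 y h
    · intro h
      have h1 : ∀ z : ℕ, ReflTransGen (fun a b => (a, b) ∈
          without E (((u : Fin n) : ℕ), ((v : Fin n) : ℕ))) ((x : Fin n) : ℕ) z →
          ∃ z' : s, ((z' : Fin n) : ℕ) = z ∧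
            ReflTransGen ((G.induce s).deleteEdges {s(u, v)}).Adj x z' := by
        intro z hz
        induction hz with
        | refl => exact ⟨x, rfl, .refl⟩
        | tail _ hbc ih =>
          obtain ⟨z', rfl, hz'⟩ := ih
          obtain ⟨ha, hb, _, _, hb'⟩ := (hE _ _).1 (mem_without.1 hbc).1
          exact ⟨⟨⟨_, hb⟩, hb'⟩, rfl, hz'.tail ((key u v _ _).2 hbc)⟩
      obtain ⟨z', hz', h2⟩ := h1 _ h
      rwa [Subtype.ext (Fin.ext hz')] at h2
  rw [SimpleGraph.isAcyclic_iff_forall_adj_isBridge, forestE, List.all_eq_true]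
  constructor
  · intro h u v huv
    have h1 := h (((u : Fin n) : ℕ), ((v : Fin n) : ℕ)) ((hE _ _).2 ⟨u.1.2, v.1.2, huv, u.2, v.2⟩)
    rw [Bool.not_eq_true', decide_eq_false_iff_not] at h1
    rw [SimpleGraph.isBridge_iff, key2]
    exact h1
  · rintro h ⟨a, b⟩ hab
    obtain ⟨ha, hb, h1, h2, h3⟩ := (hE _ _).1 hab
    have h4 := @h ⟨⟨a, ha⟩, h2⟩ ⟨⟨b, hb⟩, h3⟩ h1
    rw [SimpleGraph.isBridge_iff, key2] at h4
    rw [Bool.not_eq_true', decide_eq_false_iff_not]
    exact h4

/-! ### The verifier -/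

/-- the colour of `u` given by a certificate -/
def ccol (n : ℕ) (y : List Bool) (u : ℕ) : ℕ :=
  bif bit y u then 2 else bif bit y (n + u) then 1 else 0

/-- the colours `0`, `1` are used properly -/
def colOK (p : List Bool × List Bool) : Bool :=
  (gpairs p.1).all fun e => !gadj p.1 e.1 e.2 || (!decide (ccol (gn p.1) p.2 e.1 =
    ccol (gn p.1) p.2 e.2) || bit p.2 e.1)

/-- the edges between vertices of colour `2` -/
def fedges (p : List Bool × List Bool) : List (ℕ × ℕ) :=
  (gpairs p.1).filter fun e => gadj p.1 e.1 e.2 && (bit p.2 e.1 && bit p.2 e.2)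

/-- the verifier -/
def verify (p : List Bool × List Bool) : Bool :=
  isGraph p.1 && (colOK p && forestE (fedges p))

lemma PT_ccol {α : Type*} [Enc α] {n : α → ℕ} {y : α → List Bool} {u : α → ℕ} (hn : PT n)
    (hy : PT y) (hu : PT u) : PT fun a => ccol (n a) (y a) (u a) :=
  PT.bif (PT.bit hy hu) (PT.const 2) (PT.bif (PT.bit hy (PT.add hn hu)) (PT.const 1) (PT.const 0))

lemma PT_verify : PT verify := by
  have h1 : PT fun q : (List Bool × List Bool) × ℕ × ℕ => gn q.1.1 := PT_gn.comp (by fun_prop)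
  have h2 : PT fun q : (List Bool × List Bool) × ℕ × ℕ => gadj q.1.1 q.2.1 q.2.2 :=
    PT_gadj (by fun_prop) (by fun_prop) (by fun_prop)
  refine PT.and (PT_isGraph.comp PT.fst') (PT.and ?_ (PT_forestE ?_))
  · refine PT.all (f := fun (p : List Bool × List Bool) (e : ℕ × ℕ) =>
      !gadj p.1 e.1 e.2 || (!decide (ccol (gn p.1) p.2 e.1 = ccol (gn p.1) p.2 e.2) ||
        bit p.2 e.1)) ?_ (PT_gpairs PT.fst')
    exact PT.or (PT.not h2) (PT.or (PT.not (PT.decide_eq
      (PT_ccol h1 (by fun_prop) (by fun_prop)) (PT_ccol h1 (by fun_prop) (by fun_prop))))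
      (PT.bit (by fun_prop) (by fun_prop)))
  · refine PT.filter (f := fun (p : List Bool × List Bool) (e : ℕ × ℕ) =>
      gadj p.1 e.1 e.2 && (bit p.2 e.1 && bit p.2 e.2)) ?_ (PT_gpairs PT.fst')
    exact PT.and h2 (PT.and (PT.bit (by fun_prop) (by fun_prop)) (PT.bit (by fun_prop)
      (by fun_prop)))

/-- the partition given by a certificate -/
def cpart (n : ℕ) (y : List Bool) (u : Fin n) : Fin 3 :=
  bif bit y u then 2 else bif bit y (n + u) then 1 else 0

lemma cpart_val (n : ℕ) (y : List Bool) (u : Fin n) : (cpart n y u).val = ccol n y u := by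
  unfold cpart ccol
  cases bit y u <;> cases bit y (n + u) <;> rfl

lemma cpart_eq_two (n : ℕ) (y : List Bool) (u : Fin n) : cpart n y u = 2 ↔ bit y u = true := by
  unfold cpart
  cases bit y u <;> cases bit y (n + u) <;> simp

open Classical in
/-- The verifier accepts if and only if the certificate gives a good partition. -/
lemma verify_iff (G : Σ n, SimpleGraph (Fin n)) (y : List Bool) :
    verify (encodeGraph G, y) = true ↔
      (∀ a b, G.2.Adj a b → cpart G.1 y a = cpart G.1 y b → cpart G.1 y a = 2) ∧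
        (G.2.induce {v | cpart G.1 y v = 2}).IsAcyclic := by
  rw [verify, Bool.and_eq_true, Bool.and_eq_true]
  simp only [isGraph_encodeGraph, true_and]
  refine and_congr ?_ ?_
  · rw [colOK, List.all_eq_true]
    simp only [gn_encodeGraph]
    constructor
    · intro h a b hab hc
      have h1 := h (a.1, b.1) (by
        rw [gpairs, gn_encodeGraph, List.mem_product, List.mem_range, List.mem_range]
        exact ⟨a.2, b.2⟩)
      rw [gadj_encodeGraph, ← cpart_val, ← cpart_val, hc] at h1
      simp only [hab, decide_true, Bool.not_true, Bool.false_or] at h1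
      rwa [cpart_eq_two]
    · rintro h ⟨a, b⟩ hab
      rw [gpairs, gn_encodeGraph, List.mem_product, List.mem_range, List.mem_range] at hab
      have h1 := h ⟨a, hab.1⟩ ⟨b, hab.2⟩
      rw [cpart_eq_two] at h1
      have h2 := gadj_encodeGraph G ⟨a, hab.1⟩ ⟨b, hab.2⟩
      have h3 := cpart_val G.1 y ⟨a, hab.1⟩
      have h4 := cpart_val G.1 y ⟨b, hab.2⟩
      simp only at h1 h2 h3 h4
      show (!gadj (encodeGraph G) a b || (!decide (ccol G.1 y a = ccol G.1 y b) || bit y a)) = true
      rw [h2, ← h3, ← h4]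
      by_cases h5 : G.2.Adj ⟨a, hab.1⟩ ⟨b, hab.2⟩
      · by_cases h6 : cpart G.1 y ⟨a, hab.1⟩ = cpart G.1 y ⟨b, hab.2⟩
        · simp [h1 h5 h6]
        · have h7 : ¬ (cpart G.1 y ⟨a, hab.1⟩).val = (cpart G.1 y ⟨b, hab.2⟩).val :=
            fun h => h6 (Fin.ext h)
          simp [h7]
      · simp [h5]
  · refine forestE_iff G.2 _ _ fun a b => ?_
    rw [fedges, List.mem_filter, gpairs]
    simp only [gn_encodeGraph, List.mem_product, List.mem_range, Bool.and_eq_true,
      Set.mem_ofPred_eq, cpart_eq_two]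
    constructor
    · rintro ⟨⟨ha, hb⟩, h1, h2, h3⟩
      have h4 := gadj_encodeGraph G ⟨a, ha⟩ ⟨b, hb⟩
      simp only at h4
      rw [h4, decide_eq_true_eq] at h1
      exact ⟨ha, hb, h1, h2, h3⟩
    · rintro ⟨ha, hb, h1, h2, h3⟩
      refine ⟨⟨ha, hb⟩, ?_, h2, h3⟩
      have h4 := gadj_encodeGraph G ⟨a, ha⟩ ⟨b, hb⟩
      simp only at h4
      rw [h4, decide_eq_true_eq]
      exact h1

/-- the certificate of a partition -/
def certOf {n : ℕ} (p : Fin n → Fin 3) : List Bool :=
  (List.ofFn fun u => decide (p u = 2)) ++ List.ofFn fun u => decide (p u = 1)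

lemma cpart_certOf {n : ℕ} (p : Fin n → Fin 3) : cpart n (certOf p) = p := by
  funext u
  have h1 : bit (certOf p) u = decide (p u = 2) := by
    rw [bit, certOf, List.getD_append _ _ _ _ (by simp)]
    show bit _ _ = _
    rw [bit_eq_getElem (by simp)]
    simp
  have h2 : bit (certOf p) (n + u) = decide (p u = 1) := by
    rw [bit, certOf, List.getD_append_right _ _ _ _ (by simp)]
    show bit _ _ = _
    rw [bit_eq_getElem (by simp)]
    simp
  rw [cpart, h1, h2]
  generalize p u = c
  revert c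
  decide

/-- The problem is in NP. -/
theorem inNP_partLang : InNP PartLang := by
  refine ⟨Polynomial.C 2 * Polynomial.X, verify, PT.tmPair PT_verify, fun w => ?_⟩
  constructor
  · rintro ⟨G, rfl, p, hp⟩
    refine ⟨certOf p, ?_, ?_⟩
    · have h1 : G.1 ≤ (encodeGraph G).length := by
        rw [encodeGraph, List.length_append, List.length_replicate]
        omega
      simp only [certOf, List.length_append, List.length_ofFn, Polynomial.eval_mul,
        Polynomial.eval_C, Polynomial.eval_X]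
      omega
    · rw [verify_iff, cpart_certOf]
      exact hp
  · rintro ⟨y, _, hy⟩
    have h1 : isGraph w = true := by
      rw [verify, Bool.and_eq_true] at hy
      exact hy.1
    have h2 := encodeGraph_graphOf w h1
    refine ⟨⟨gn w, graphOf w h1⟩, h2.symm, cpart (gn w) y, ?_⟩
    rw [← h2] at hy
    exact (verify_iff _ _).1 hy

end Pool.Agent.OOD
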