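import Pool.Agent.Lib.OOD.Tables

/-!
# Local properties of the blocks, checked by the kernel

References: the vertices seen by the block `(i, j)` are coded by `r = di + 2 * dj + 4 * k`, meaning
the vertex number `k` owned by the block `(i + di, j + dj)`; `1020` and `1021` code the two apexes.
Vertices `k < 7` are on the grid lines: `0` the upper left corner, `1, 2, 3` on the upper side,
`4, 5, 6` on the left side; the vertices `k ≥ 7` are interior.
-/

set_option autoImplicit false

namespace Pool.Agent.OOD

/-- initial vertex of a dart -/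
def src (τ e : ℕ) : ℕ := pk 10 (srcN τ) e
/-- next dart in the triangle -/
def phi (e : ℕ) : ℕ := if e % 3 = 2 then e - 2 else e + 1
/-- terminal vertex of a dart -/
def tgt (τ e : ℕ) : ℕ := src τ (phi e)
/-- where the reversed dart is: `0` same block, `1` right, `2` left, `3` below, `4` above -/
def dir (τ e : ℕ) : ℕ := pk 14 (revN τ) e % 8
/-- index of the reversed dart -/
def rev (τ e : ℕ) : ℕ := pk 14 (revN τ) e / 8
/-- rank of the dart around its initial vertex -/
def hh (τ e : ℕ) : ℕ := pk 6 (hN τ) e
/-- canonical dart of an own vertex -/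
def can (τ k : ℕ) : ℕ := pk 11 (canN τ) k
/-- is `k` an own vertex? -/
def own (τ k : ℕ) : Bool := Nat.testBit (ownN τ) k

/-- `r` in the left block and `r'` in the right block are the same vertex -/
def eqH (r r' : ℕ) : Bool := (decide (r = r' + 2) && decide ((r' / 2) % 2 = 0) && decide (r < 1020)) ||
  (decide (r = r') && decide (1020 ≤ r) && decide (r < 1022))

/-- `r` in the upper block and `r'` in the lower block are the same vertex -/
def eqV (r r' : ℕ) : Bool := decide (r = r' + 1) && decide (r' % 2 = 0) && decide (r < 1020)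

/-- valid references -/
def vref (τ r : ℕ) : Bool :=
  (decide (r < 1020) && decide (r % 4 = 0) && own τ (r / 4)) ||
  (decide (τ = 0) && (decide (r = 1020) || decide (r = 3) || decide (r = 1) || decide (r = 5) ||
    decide (r = 9) || decide (r = 13))) ||
  (decide (τ = 1) && (decide (r = 1021) || decide (r = 2))) ||
  (decide (2 ≤ τ) && (decide (r = 3) || decide (r = 1) || decide (r = 5) ||
    decide (r = 9) || decide (r = 13) || decide (r = 2) || decide (r = 18) || decide (r = 22) ||
    decide (r = 26)))

/-- check of a property of all darts of a block -/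
def allD (τ : ℕ) (P : ℕ → Bool) : Bool := (List.range (ndN τ)).all P

lemma allD_iff {τ : ℕ} {P : ℕ → Bool} : allD τ P = true ↔ ∀ e < ndN τ, P e = true := by
  simp [allD]

/-- inner darts -/
def chk1 (τ e : ℕ) : Bool :=
  decide (phi e < ndN τ) && vref τ (src τ e) && !decide (src τ e = tgt τ e) &&
  (!decide (dir τ e = 0) ||
    (decide (rev τ e < ndN τ) && decide (dir τ (rev τ e) = 0) && decide (rev τ (rev τ e) = e) &&
      decide (src τ (rev τ e) = tgt τ e) && decide (tgt τ (rev τ e) = src τ e)))

/-- rank of a dart on the grid lines and in the interior: the darts around a vertex form a fan in each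
block, ending with a dart whose reversed dart is in the next block -/
def chk2 (τ e : ℕ) : Bool :=
  (decide (hh τ e = 0) ||
    (decide (dir τ e = 0) && decide (hh τ (phi (rev τ e)) + 1 = hh τ e))) &&
  (!decide (hh τ e = 0) || !decide (src τ e % 4 = 0) || !decide (src τ e < 1020) ||
    decide (can τ (src τ e / 4) = e)) &&
  (!decide (hh τ e = 0) || decide (src τ e % 4 = 0) || !decide (dir τ e = 0)) &&
  (!decide (src τ e = 1020) || (!decide (hh τ e = 0) || decide (e = 24)) ) &&
  (!decide (src τ e = 1021) || (!decide (hh τ e = 0) || (decide (e = 27) && !decide (dir τ e = 0)))) &&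
  (decide (dir τ e = 0) || (decide (hh τ e = 0) && decide (dir τ e < 5) &&
    (!decide (dir τ e = 1) || decide (src τ e % 4 = 2) || decide (src τ e = 1020)) &&
    (!decide (dir τ e = 2) || decide (src τ e % 4 = 0) || decide (src τ e = 1) ||
      decide (src τ e = 1021)) &&
    (!decide (dir τ e = 3) || decide (src τ e = 3) ||
      (decide (src τ e % 4 = 1) && !decide (src τ e = 1) && decide (src τ e < 1020))) &&
    (!decide (dir τ e = 4) || (decide (src τ e % 4 = 0) && decide (src τ e < 1020)))))

/-- horizontal adjacency: `τ` left, `τ'` right -/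
def chkH (τ τ' e : ℕ) : Bool :=
  (!decide (dir τ e = 1) ||
    (decide (rev τ e < ndN τ') && decide (dir τ' (rev τ e) = 2) && decide (rev τ' (rev τ e) = e) &&
      eqH (tgt τ e) (src τ' (rev τ e)) && eqH (src τ e) (tgt τ' (rev τ e))))

/-- horizontal adjacency: `τ` left, `τ'` right -/
def chkH' (τ τ' e : ℕ) : Bool :=
  (!decide (dir τ' e = 2) ||
    (decide (rev τ' e < ndN τ) && decide (dir τ (rev τ' e) = 1) && decide (rev τ (rev τ' e) = e)))

/-- vertical adjacency: `τ` above, `τ'` below -/
def chkV (τ τ' e : ℕ) : Bool :=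
  (!decide (dir τ e = 3) ||
    (decide (rev τ e < ndN τ') && decide (dir τ' (rev τ e) = 4) && decide (rev τ' (rev τ e) = e) &&
      eqV (tgt τ e) (src τ' (rev τ e)) && eqV (src τ e) (tgt τ' (rev τ e))))

/-- vertical adjacency: `τ` above, `τ'` below -/
def chkV' (τ τ' e : ℕ) : Bool :=
  (!decide (dir τ' e = 4) ||
    (decide (rev τ' e < ndN τ) && decide (dir τ (rev τ' e) = 3) && decide (rev τ (rev τ' e) = e)))

/-- `0 → nothing above, 1 → nothing below` -/
def chkE (τ e : ℕ) : Bool :=
  (!decide (τ = 0) || !decide (dir τ e = 4)) && (!decide (τ = 1) || !decide (dir τ e = 3))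

/-- the ends of a dart as one number -/
def ends (τ e : ℕ) : ℕ := src τ e * 1024 + tgt τ e

/-- different darts of a block have different ends -/
def chk3 (τ e : ℕ) : Bool :=
  decide (pk 11 (posN τ) e < ndN τ) && decide (pk 11 (invN τ) (pk 11 (posN τ) e) = e) &&
  (decide (e + 1 = ndN τ) ||
    decide (ends τ (pk 11 (invN τ) e) < ends τ (pk 11 (invN τ) (e + 1))))

/-- class of a reference: `7` interior, `8`, `9` apexes -/
def cls (r : ℕ) : ℕ := if r = 1020 then 8 else if r = 1021 then 9 else min (r / 4) 7

/-- offset of the first (if it is not an apex) or the second end of a dart between classes `a`, `b` -/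
def home (a b : ℕ) : ℕ := pk 2 0x300000000020200000800000100000400001912c0 (10 * a + b)

/-- The offsets are determined by the classes of the two ends. -/
def chk4 (τ e : ℕ) : Bool :=
  let s := src τ e
  let t := tgt τ e
  (!decide (cls s = 7) || decide (s % 4 = 0)) &&
  (!decide (cls t = 7) || decide (t % 4 = 0)) &&
  (decide (cls s = 7) || decide (cls t = 7) ||
    (decide (cls s < 7) && decide (s % 4 = home (cls s) (cls t))) ||
    (decide (8 ≤ cls s) && decide (cls t < 7) && decide (t % 4 = home (cls s) (cls t))))

/-- level of an own vertex -/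
def lv (τ k : ℕ) : ℕ := pk 6 (lvN τ) k
/-- dart leading from an own vertex to one of lower level -/
def nx (τ k : ℕ) : ℕ := pk 11 (nxN τ) k

/-- connectedness inside a block -/
def chk5 (τ k : ℕ) : Bool :=
  !own τ k || (decide (k = 0) && decide (1 ≤ τ)) ||
    (decide (nx τ k < ndN τ) && decide (src τ (nx τ k) = 4 * k) &&
      ((decide (tgt τ (nx τ k) < 1020) && decide (tgt τ (nx τ k) % 4 = 0) &&
        decide (lv τ (tgt τ (nx τ k) / 4) < lv τ k)) ||
        (decide (tgt τ (nx τ k) = 1020) && decide (0 < lv τ k))))

/-- connection of the lower left corner with the interior -/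
def chk5' (τ : ℕ) : Bool :=
  decide (upN τ < ndN τ) && decide (src τ (upN τ) = 1) && decide (tgt τ (upN τ) < 1020) &&
    decide (tgt τ (upN τ) % 4 = 0) && decide (28 ≤ tgt τ (upN τ))

/-- a colour different from `0` and `v` -/
def pp (v : ℕ) : ℕ := if v = 1 then 2 else 1

/-- colours of the vertices on the grid lines -/
def colB (x y k : ℕ) : ℕ :=
  if k = 0 then 0 else if k = 2 then y else if k < 4 then pp y else if k = 5 then x else pp x

/-- colour of a vertex of a block, with row colour `x` and column colour `y` -/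
def lc (τ x y r : ℕ) : ℕ :=
  if 1020 ≤ r then 1 else if r / 4 < 7 then colB x y (r / 4) else pk 2 (colN τ x y) (r / 4)

/-- rank in the forest -/
def lr (τ x y r : ℕ) : ℕ :=
  if 1020 ≤ r then 0 else if r / 4 < 7 then 0 else pk 6 (rkN τ x y) (r / 4)

/-- parent in the forest -/
def lp (τ x y r : ℕ) : ℕ := pk 10 (parN τ x y) (r / 4)

/-- the colouring of the block is right -/
def chk6 (τ x y e : ℕ) : Bool :=
  let s := src τ e
  let t := tgt τ e
  decide (lc τ x y s < 3) &&
  (!decide (lc τ x y s = lc τ x y t) ||
    (decide (lc τ x y s = 2) &&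
      ((decide (lr τ x y t < lr τ x y s) && decide (lp τ x y s = t)) ||
        (decide (lr τ x y s < lr τ x y t) && decide (lp τ x y t = s)))))

/-- the vertices of the edge gadgets -/
def gad (τ g a : ℕ) : ℕ := pk 10 (gadN τ) (10 * g + a)

/-- the edges of the edge gadget -/
def eeL : List (ℕ × ℕ) :=
  [(0, 1), (0, 2), (0, 3), (0, 4), (0, 5), (0, 9), (1, 2), (1, 5), (1, 6), (1, 7), (2, 3), (2, 7),
   (3, 7), (3, 8), (3, 9), (4, 5), (4, 6), (4, 8), (4, 9), (5, 6), (6, 7), (6, 8), (7, 8), (8, 9)]

/-- the gadgets are there -/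
def chk7 (τ : ℕ) : Bool :=
  (List.range (ngN τ)).all fun g =>
    (eeL.zipIdx.all fun p =>
      decide (pk 11 (gedN τ) (24 * g + p.2) < ndN τ) &&
      decide (src τ (pk 11 (gedN τ) (24 * g + p.2)) = gad τ g p.1.1) &&
      decide (tgt τ (pk 11 (gedN τ) (24 * g + p.2)) = gad τ g p.1.2)) &&
    ((List.range 10).all fun a => (List.range 10).all fun b =>
      decide (a = b) || !decide (gad τ g a = gad τ g b))

/-- admissible row and column colours -/
def okxy (τ x y : ℕ) : Bool :=
  (!decide (τ = 3) || !decide (x = y)) && (!decide (τ = 4) || decide (x = y))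

/-- all local checks of one block -/
def chkAll (τ : ℕ) : Bool :=
  allD τ (chk1 τ) && allD τ (chk2 τ) && allD τ (chkE τ) && allD τ (chk3 τ) && allD τ (chk4 τ) &&
  ((List.range 255).all (chk5 τ)) && (decide (τ = 1) || chk5' τ) && chk7 τ &&
  (decide (2 ≤ τ) || decide (τ = 0) || decide (τ = 1))

/-- the block has the right number of darts -/
def chkN (τ : ℕ) : Bool :=
  decide (ndN τ % 3 = 0) &&
  decide (ndN τ + (if τ = 1 then 12 else 0) =
    6 * ((List.range 255).filter (own τ)).length + (if τ = 0 then 12 else 0))

theorem chkAll_0 : chkAll 0 = true := by decide +kernel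
theorem chkAll_1 : chkAll 1 = true := by decide +kernel
theorem chkAll_2 : chkAll 2 = true := by decide +kernel
theorem chkAll_3 : chkAll 3 = true := by decide +kernel
theorem chkAll_4 : chkAll 4 = true := by decide +kernel

theorem chkN_all : ∀ τ < 5, chkN τ = true := by decide +kernel

theorem chk6_all : ∀ τ < 5, ∀ x < 3, ∀ y < 3, okxy τ x y = true → allD τ (chk6 τ x y) = true := by
  decide +kernel

/-- horizontally compatible kinds -/
def compH (τ τ' : ℕ) : Bool :=
  (decide (τ = 0) && decide (τ' = 0)) || (decide (τ = 1) && decide (τ' = 1)) ||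
    (decide (2 ≤ τ) && decide (2 ≤ τ'))

/-- vertically compatible kinds -/
def compV (τ τ' : ℕ) : Bool :=
  (decide (τ = 0) && decide (2 ≤ τ')) || (decide (2 ≤ τ) && decide (τ' = 1)) ||
    (decide (2 ≤ τ) && decide (2 ≤ τ'))

theorem chkH_all : ∀ τ < 5, ∀ τ' < 5, compH τ τ' = true →
    (allD τ (chkH τ τ') && allD τ' (chkH' τ τ')) = true := by
  decide +kernel

theorem chkV_all : ∀ τ < 5, ∀ τ' < 5, compV τ τ' = true →
    (allD τ (chkV τ τ') && allD τ' (chkV' τ τ')) = true := by
  decide +kernel

end Pool.Agent.OOD
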