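import Pool.Agent.Lib.OOD.Rot

/-!
# The grid graph is maximal planar
-/

set_option autoImplicit false

namespace Pool.Agent.OOD

open Pool.Agent.Lib.CookLevin

section

variable {n : ℕ} {τ : ℕ → ℕ → ℕ}

/-! ### Different darts have different ends -/

/-- class of a vertex -/
def clsV (n : ℕ) (v : ℕ × ℕ × ℕ) : ℕ := if v.1 = n + 2 then 8 + v.2.2 else min v.2.2 7

/-- the block `(i, j)` such that `v` is owned by the block with offset `o` -/
def unsh (n : ℕ) (v : ℕ × ℕ × ℕ) (o : ℕ) : ℕ × ℕ :=
  (v.1 - o % 2, if (o / 2) % 2 = 1 then pc n v.2.1 else v.2.1)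

/-- the block of the dart from `u` to `v` -/
def blk (n : ℕ) (u v : ℕ × ℕ × ℕ) : ℕ × ℕ :=
  if clsV n u = 7 then unsh n u 0 else if clsV n v = 7 then unsh n v 0
  else if clsV n u < 7 then unsh n u (home (clsV n u) (clsV n v))
  else unsh n v (home (clsV n u) (clsV n v))

lemma clsV_gv {i j r : ℕ} (hi : i < n + 2) (hr : r < 1022)
    (hd : i + 1 < n + 2 ∨ r % 2 = 0 ∨ 1020 ≤ r) : clsV n (gv n i j r) = cls r := by
  by_cases h : r < 1020
  · rw [gv_lt h]
    unfold clsV cls
    rw [if_neg (by show ¬ i + r % 2 = n + 2; omega), if_neg (by omega : ¬ r = 1020),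
      if_neg (by omega : ¬ r = 1021)]
  · have h' : r = 1020 ∨ r = 1021 := by omega
    rcases h' with rfl | rfl <;> simp [clsV, cls, gv]

lemma unsh_gv {i j r : ℕ} (hj : j < n) (h : r < 1020) :
    unsh n (gv n i j r) (r % 4) = (i, j) := by
  rw [gv_lt h]
  unfold unsh
  have e1 : r % 4 % 2 = r % 2 := by omega
  have e2 : r % 4 / 2 % 2 = r / 2 % 2 := by omega
  simp only [e1, e2, Nat.add_sub_cancel]
  by_cases h' : r / 2 % 2 = 1
  · simp only [if_pos h', pc_sc hj]
  · simp only [if_neg h']

theorem Good.blk_eq (hg : Good n τ) {d : ℕ × ℕ × ℕ} (hd : DV n τ d) :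
    blk n (gs n τ d) (gs n τ (gp d)) = (d.1, d.2.1) := by
  obtain ⟨i, j, e⟩ := d
  have hd' := gp_valid hg hd
  have hv := hg.vref_src hd
  have hv' := hg.vref_src hd'
  obtain ⟨hi, hj, he⟩ := hd
  simp only at hi hj he
  have hτ := hg.lt5 j hi
  have h4 := loc4 hτ he
  simp only [gp] at hv' hv
  obtain ⟨b1, b2⟩ := hg.vref_bound hi hv
  obtain ⟨b3, b4⟩ := hg.vref_bound hi hv'
  have c1 : clsV n (gs n τ (i, j, e)) = cls (src (τ i j) e) := clsV_gv hi b1 b2
  have c2 : clsV n (gs n τ (gp (i, j, e))) = cls (tgt (τ i j) e) := clsV_gv hi b3 b4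
  have u1 : src (τ i j) e < 1020 → unsh n (gs n τ (i, j, e)) (src (τ i j) e % 4) = (i, j) :=
    fun h => unsh_gv hj h
  have u2 : tgt (τ i j) e < 1020 → unsh n (gs n τ (gp (i, j, e))) (tgt (τ i j) e % 4) = (i, j) :=
    fun h => unsh_gv hj h
  have k1 : ∀ r, cls r ≤ 7 → r < 1020 ∨ 1022 ≤ r := by
    intro r hr
    unfold cls at hr
    split_ifs at hr <;> omega
  simp only [chk4, Bool.and_eq_true, Bool.or_eq_true, Bool.not_eq_true', decide_eq_true_eq,
    decide_eq_false_iff_not] at h4
  obtain ⟨⟨h4a, h4b⟩, h4c⟩ := h4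
  show blk n (gs n τ (i, j, e)) (gs n τ (gp (i, j, e))) = (i, j)
  have b3' : tgt (τ i j) e < 1022 := b3
  unfold blk
  rw [c1, c2]
  by_cases h1 : cls (src (τ i j) e) = 7
  · rw [if_pos h1]
    have h2 : src (τ i j) e % 4 = 0 := by
      rcases h4a with h | h
      · exact absurd h1 h
      · exact h
    have h3 := u1 (by have := k1 _ h1.le; omega)
    rwa [h2] at h3
  rw [if_neg h1]
  by_cases h1' : cls (tgt (τ i j) e) = 7
  · rw [if_pos h1']
    have h2 : tgt (τ i j) e % 4 = 0 := by
      rcases h4b with h | h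
      · exact absurd h1' h
      · exact h
    have h3 := u2 (by have := k1 _ h1'.le; omega)
    rwa [h2] at h3
  rw [if_neg h1']
  rcases h4c with ((h | h) | ⟨h, h'⟩) | ⟨⟨h, h'⟩, h''⟩
  · exact absurd h h1
  · exact absurd h h1'
  · rw [if_pos h, ← h']
    exact u1 (by have := k1 _ (by omega : cls (src (τ i j) e) ≤ 7); omega)
  · rw [if_neg (by omega), ← h'']
    exact u2 (by have := k1 _ (by omega : cls (tgt (τ i j) e) ≤ 7); omega)

/-- different darts of a block have different ends -/
lemma ends_inj {t e e' : ℕ} (ht : t < 5) (he : e < ndN t) (he' : e' < ndN t)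
    (h1 : src t e = src t e') (h2 : tgt t e = tgt t e') : e = e' := by
  -- the sequence of ends in the sorted order is increasing
  have hs : ∀ p, p + 1 < ndN t → ends t (pk 11 (invN t) p) < ends t (pk 11 (invN t) (p + 1)) := by
    intro p hp
    have h := loc3 ht (by omega : p < ndN t)
    simp only [chk3, Bool.and_eq_true, Bool.or_eq_true, decide_eq_true_eq] at h
    rcases h.2 with h | h
    · omega
    · exact h
  have hm : ∀ p q, p < q → q < ndN t →
      ends t (pk 11 (invN t) p) < ends t (pk 11 (invN t) q) := by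
    intro p q hpq
    induction q with
    | zero => omega
    | succ q ih =>
      intro hq
      rcases Nat.lt_succ_iff_lt_or_eq.1 hpq with h | h
      · exact (ih h (by omega)).trans (hs q hq)
      · rw [h]; exact hs q hq
  have hp : ∀ e, e < ndN t → pk 11 (posN t) e < ndN t ∧
      pk 11 (invN t) (pk 11 (posN t) e) = e := by
    intro e he
    have h := loc3 ht he
    simp only [chk3, Bool.and_eq_true, Bool.or_eq_true, decide_eq_true_eq] at h
    exact h.1
  obtain ⟨p1, p2⟩ := hp e he
  obtain ⟨q1, q2⟩ := hp e' he'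
  have he2 : ends t e = ends t e' := by simp only [ends, h1, h2]
  rcases lt_trichotomy (pk 11 (posN t) e) (pk 11 (posN t) e') with h | h | h
  · have := hm _ _ h q1; rw [p2, q2, he2] at this; exact absurd this (lt_irrefl _)
  · rw [← p2, h, q2]
  · have := hm _ _ h p1; rw [p2, q2, he2] at this; exact absurd this (lt_irrefl _)

theorem Good.dart_inj (hg : Good n τ) {d d' : ℕ × ℕ × ℕ} (hd : DV n τ d) (hd' : DV n τ d')
    (h1 : gs n τ d = gs n τ d') (h2 : gs n τ (gp d) = gs n τ (gp d')) : d = d' := by
  have hb := hg.blk_eq hd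
  have hb' := hg.blk_eq hd'
  rw [h1, h2, hb'] at hb
  obtain ⟨i, j, e⟩ := d
  obtain ⟨i', j', e'⟩ := d'
  simp only [Prod.mk.injEq] at hb
  obtain ⟨rfl, rfl⟩ := hb
  have hv1 := hg.vref_src hd
  have hv2 := hg.vref_src hd'
  have hv3 := hg.vref_src (gp_valid hg hd)
  have hv4 := hg.vref_src (gp_valid hg hd')
  have e1 : src (τ i' j') e = src (τ i' j') e' := hg.gv_inj hd.1 hd.2.1 hv1 hv2 h1
  have e2 : tgt (τ i' j') e = tgt (τ i' j') e' := hg.gv_inj hd.1 hd.2.1 hv3 hv4 h2
  have e3 : e = e' := ends_inj (hg.lt5 j' hd.1) hd.2.2 hd'.2.2 e1 e2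
  rw [e3]

/-! ### Counting -/

lemma sum_range_list (m : ℕ) (f : ℕ → ℕ) : ((List.range m).map f).sum =
    ∑ i ∈ Finset.range m, f i := rfl

lemma sum_blocks (f : ℕ → ℕ → ℕ) : ((blocks n).map fun p => f p.1 p.2).sum =
    ∑ i ∈ Finset.range (n + 2), ∑ j ∈ Finset.range n, f i j := by
  have h : ∀ (l : List ℕ), ((l ×ˢ List.range n).map fun p => f p.1 p.2).sum =
      (l.map fun i => ∑ j ∈ Finset.range n, f i j).sum := by
    intro l
    induction l with
    | nil => simp
    | cons a l ih =>
      rw [List.product_cons, List.map_append, List.sum_append, ih, List.map_cons, List.sum_cons]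
      congr 1
      rw [List.map_map]
      exact sum_range_list n (f a)
  rw [blocks, h]
  exact sum_range_list (n + 2) _

lemma length_names : (names n τ).length =
    (∑ i ∈ Finset.range (n + 2), ∑ j ∈ Finset.range n, (ownL (τ i j)).length) + 2 := by
  rw [names, List.length_append, List.length_flatMap]
  congr 1
  simp only [List.length_map]
  exact sum_blocks fun i j => (ownL (τ i j)).length

lemma length_dartL : (dartL n τ).length =
    ∑ i ∈ Finset.range (n + 2), ∑ j ∈ Finset.range n, ndN (τ i j) := by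
  rw [dartL, List.length_flatMap]
  simp only [List.length_map, List.length_range]
  exact sum_blocks fun i j => ndN (τ i j)

theorem Good.count (hg : Good n τ) : (dartL n τ).length + 12 = 6 * (names n τ).length := by
  have key : ∀ i j, i < n + 2 → ndN (τ i j) + (if i = n + 1 then 12 else 0) =
      6 * (ownL (τ i j)).length + (if i = 0 then 12 else 0) := by
    intro i j hi
    have h := locN (hg.lt5 j hi)
    simp only [chkN, Bool.and_eq_true, decide_eq_true_eq] at h
    have h2 := h.2
    have e1 : (if τ i j = 1 then 12 else 0) = (if i = n + 1 then 12 else 0) := by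
      by_cases h' : i = n + 1
      · rw [if_pos h', h', hg.bot, if_pos rfl]
      · rw [if_neg h', if_neg fun h'' => h' (hg.tau_eq_one hi h'')]
    have e2 : (if τ i j = 0 then 12 else 0) = (if i = 0 then 12 else 0) := by
      by_cases h' : i = 0
      · rw [if_pos h', h', hg.top, if_pos rfl]
      · rw [if_neg h', if_neg fun h'' => h' (hg.tau_eq_zero hi h'')]
    rw [e1, e2] at h2
    exact h2
  have key2 : ∑ i ∈ Finset.range (n + 2), ∑ j ∈ Finset.range n,
      (ndN (τ i j) + (if i = n + 1 then 12 else 0)) =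
      ∑ i ∈ Finset.range (n + 2), ∑ j ∈ Finset.range n,
        (6 * (ownL (τ i j)).length + (if i = 0 then 12 else 0)) :=
    Finset.sum_congr rfl fun i hi => Finset.sum_congr rfl fun j _ =>
      key i j (Finset.mem_range.1 hi)
  simp only [Finset.sum_add_distrib, ← Finset.mul_sum, Finset.sum_const, Finset.card_range,
    smul_eq_mul] at key2
  rw [Finset.sum_ite_eq' (Finset.range (n + 2)) (n + 1), Finset.sum_ite_eq' (Finset.range (n + 2)) 0]
    at key2
  rw [length_names, length_dartL]
  simp at key2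
  omega

/-! ### The lists have no repetitions -/

lemma nodup_blocks : (blocks n).Nodup := List.Nodup.product List.nodup_range List.nodup_range

lemma nodup_flatMap_aux (f : ℕ × ℕ → List ℕ) (hf : ∀ p, (f p).Nodup) :
    ((blocks n).flatMap fun p => (f p).map fun k => (p.1, p.2, k)).Nodup := by
  rw [List.nodup_flatMap]
  refine ⟨fun p _ => (hf p).map ?_, ?_⟩
  · intro a b h
    simpa using h
  · refine (nodup_blocks (n := n)).imp ?_
    intro p q hpq
    rw [Function.onFun, List.disjoint_left]
    intro v hv hv'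
    rw [List.mem_map] at hv hv'
    obtain ⟨k, -, rfl⟩ := hv
    obtain ⟨k', -, h⟩ := hv'
    simp only [Prod.mk.injEq] at h
    exact hpq (Prod.ext h.1.symm h.2.1.symm)

lemma nodup_dartL : (dartL n τ).Nodup :=
  nodup_flatMap_aux (fun p => List.range (ndN (τ p.1 p.2))) fun _ => List.nodup_range

lemma nodup_names : (names n τ).Nodup := by
  rw [names, List.nodup_append]
  refine ⟨nodup_flatMap_aux (fun p => ownL (τ p.1 p.2)) fun _ => List.nodup_range.filter _,
    by simp, ?_⟩
  intro v hv w hw
  simp only [List.mem_flatMap, List.mem_map, Prod.exists, mem_blocks] at hv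
  obtain ⟨a, b, ⟨h1, h2⟩, c, h3, h4⟩ := hv
  simp only [List.mem_cons, List.not_mem_nil, or_false] at hw
  intro h5
  have h6 : v.1 = a := by rw [← h4]
  rcases hw with rfl | rfl <;> (rw [h5] at h6; simp only at h6; omega)

/-! ### Connectedness -/

lemma gv_own {i j r : ℕ} (h : r < 1020) (h4 : r % 4 = 0) : gv n i j r = (i, j, r / 4) := by
  rw [gv_lt h, if_neg (by omega : ¬ r / 2 % 2 = 1), (by omega : r % 2 = 0), Nat.add_zero]

/-- potential of a vertex -/
def pot (n : ℕ) (τ : ℕ → ℕ → ℕ) (v : ℕ × ℕ × ℕ) : ℕ :=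
  if v.1 = n + 2 then (if v.2.2 = 0 then 0 else 64 * (n + 2)) else 64 * v.1 + lv (τ v.1 v.2.1) v.2.2

lemma lv_lt (t k : ℕ) : lv t k < 64 := Nat.mod_lt _ (by norm_num)

/-- The level of the corner is zero. -/
lemma lv_corner {t : ℕ} (ht : t < 5) (h : 1 ≤ t) : lv t 0 = 0 := by
  interval_cases t <;> decide +kernel

theorem Good.exists_lower (hg : Good n τ) {v : ℕ × ℕ × ℕ} (hv : VV n τ v)
    (h0 : v ≠ (n + 2, 0, 0)) : ∃ w, (v, w) ∈ edgeL n τ ∧ pot n τ w < pot n τ v := by
  have hn := hg.hn
  rcases hv with ⟨hi, hj, hk⟩ | rfl | rfl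
  · obtain ⟨i, j, k⟩ := v
    simp only at hi hj hk
    have hτ := hg.lt5 j hi
    have hpv : pot n τ (i, j, k) = 64 * i + lv (τ i j) k := by
      unfold pot; rw [if_neg (by show ¬ i = n + 2; omega)]
    have h5 := loc5 hτ (own_lt hk)
    simp only [chk5, Bool.and_eq_true, Bool.or_eq_true, Bool.not_eq_true', decide_eq_true_eq, hk,
      Bool.true_eq_false, false_or] at h5
    rcases h5 with ⟨rfl, h1⟩ | ⟨⟨h1, h2⟩, h3⟩
    · -- a corner: go up
      have hi0 : i ≠ 0 := by rintro rfl; rw [hg.top] at h1; omega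
      obtain ⟨i', rfl⟩ : ∃ i', i = i' + 1 := ⟨i - 1, by omega⟩
      have hi' : i' < n + 2 := by omega
      have hτ' := hg.lt5 j hi'
      have hne : τ i' j ≠ 1 := fun h => by have := hg.tau_eq_one hi' h; omega
      have h := loc5' hτ' hne
      simp only [chk5', Bool.and_eq_true, decide_eq_true_eq] at h
      obtain ⟨⟨⟨⟨h3, h4⟩, h5⟩, h6⟩, h7⟩ := h
      refine ⟨gv n i' j (tgt (τ i' j) (upN (τ i' j))), ?_, ?_⟩
      · rw [mem_edgeL]
        refine ⟨(i', j, upN (τ i' j)), ⟨hi', hj, h3⟩, ?_, rfl⟩
        show gv n i' j (src (τ i' j) (upN (τ i' j))) = _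
        rw [h4, gv_lt (by norm_num)]
        norm_num
      · rw [hpv, gv_own h5 h6, lv_corner hτ h1]
        unfold pot
        rw [if_neg (by show ¬ i' = n + 2; omega)]
        have := lv_lt (τ i' j) (tgt (τ i' j) (upN (τ i' j)) / 4)
        simp only
        omega
    · refine ⟨gv n i j (tgt (τ i j) (nx (τ i j) k)), ?_, ?_⟩
      · rw [mem_edgeL]
        refine ⟨(i, j, nx (τ i j) k), ⟨hi, hj, h1⟩, ?_, rfl⟩
        show gv n i j (src (τ i j) (nx (τ i j) k)) = _
        rw [h2, gv_lt (by have := own_lt hk; omega), if_neg (by omega), (by omega : 4 * k % 2 = 0),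
          (by omega : 4 * k / 4 = k), Nat.add_zero]
      · rw [hpv]
        rcases h3 with ⟨⟨h3, h4⟩, h5⟩ | ⟨h3, h4⟩
        · rw [gv_own h3 h4]
          unfold pot
          rw [if_neg (by show ¬ i = n + 2; omega)]
          simp only
          omega
        · rw [h3]
          simp only [gv, if_true, pot]
          omega
  · exact absurd rfl h0
  · -- the lower apex
    have hb : τ (n + 1) 0 = 1 := hg.bot 0
    refine ⟨(n + 1, 0, 0), ?_, ?_⟩
    · rw [mem_edgeL]
      refine ⟨(n + 1, 0, 27), ⟨by simp only; omega, by simp only; omega, ?_⟩, ?_, ?_⟩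
      · simp only [hb]; decide +kernel
      · show gv n (n + 1) 0 (src (τ (n + 1) 0) 27) = _
        rw [hb]
        have : src 1 27 = 1021 := by decide +kernel
        rw [this]; simp [gv]
      · have : src 1 (phi 27) = 0 := by decide +kernel
        simp only [gs, gp, hb, this]
        simp [gv]
    · unfold pot
      rw [if_neg (by simp), if_pos rfl, if_neg (by simp)]
      have : lv (τ (n + 1) 0) 0 = 0 := by rw [hb]; decide +kernel
      simp only [this]
      omega

/-- index of a vertex -/
def ix (v : ℕ × ℕ × ℕ) (h : VV n τ v) : Fin (names n τ).length :=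
  ⟨(names n τ).idxOf v, List.idxOf_lt_length_iff.2 (mem_names.2 h)⟩

lemma names_ix {v : ℕ × ℕ × ℕ} (h : VV n τ v) : (names n τ)[ix v h] = v := by
  simp [ix]

lemma ix_inj {v w : ℕ × ℕ × ℕ} (hv : VV n τ v) (hw : VV n τ w) (h : ix v hv = ix w hw) : v = w := by
  have h1 := names_ix hv
  have h2 := names_ix hw
  have h3 : ∀ a b : Fin (names n τ).length, a = b → (names n τ)[a] = (names n τ)[b] := by
    intro a b h; subst h; rfl
  rw [← h1, ← h2]
  exact h3 _ _ h

lemma ix_names (a : Fin (names n τ).length) (h : VV n τ (names n τ)[a]) :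
    ix (names n τ)[a] h = a := by
  apply Fin.ext
  simp only [ix]
  exact List.Nodup.idxOf_getElem nodup_names _ _

lemma VV_names (a : Fin (names n τ).length) : VV n τ (names n τ)[a] :=
  mem_names.1 (List.getElem_mem _)

theorem Good.connected (hg : Good n τ) : (gridGraph hg).Connected := by
  have h00 : VV n τ (n + 2, 0, 0) := Or.inr (Or.inl rfl)
  have key : ∀ m (a : Fin (names n τ).length), pot n τ (names n τ)[a] ≤ m →
      (gridGraph hg).Reachable a (ix (n + 2, 0, 0) h00) := by
    intro m
    induction m using Nat.strong_induction_on with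
    | _ m ih =>
      intro a ha
      by_cases h : (names n τ)[a] = (n + 2, 0, 0)
      · have : a = ix (n + 2, 0, 0) h00 := by
          rw [← ix_names a (VV_names a)]
          congr 1
        rw [this]
      · obtain ⟨w, hw1, hw2⟩ := hg.exists_lower (VV_names a) h
        have hwv : VV n τ w := by
          obtain ⟨d, hd, -, h2⟩ := mem_edgeL.1 hw1
          rw [← h2]; exact hg.gs_valid (gp_valid hg hd)
        have h3 := ih (pot n τ w) (by omega) (ix w hwv) (by rw [names_ix])
        refine (SimpleGraph.Adj.reachable ?_).trans h3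
        show ((names n τ)[a], (names n τ)[ix w hwv]) ∈ edgeL n τ
        rw [names_ix]
        exact hw1
  have : Nonempty (Fin (names n τ).length) := ⟨ix (n + 2, 0, 0) h00⟩
  exact ⟨fun a b => (key _ a le_rfl).trans (key _ b le_rfl).symm⟩

/-! ### The grid graph is maximal planar -/

theorem Good.maximalPlanar (hg : Good n τ) : MaximalPlanar (gridGraph hg) := by
  classical
  let D := {d : ℕ × ℕ × ℕ // d ∈ dartL n τ}
  have hD : ∀ d : D, DV n τ d.1 := fun d => mem_dartL.1 d.2
  have hfin : Finite D := Set.Finite.to_subtype (List.finite_toSet (dartL n τ))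
  let α : D → D := fun d => ⟨ga n τ d.1, mem_dartL.2 (hg.ga_spec (hD d)).1⟩
  let φ : D → D := fun d => ⟨gp d.1, mem_dartL.2 (gp_valid hg (hD d))⟩
  let s : D → Fin (names n τ).length := fun d => ix (gs n τ d.1) (hg.gs_valid (hD d))
  have hs : ∀ d : D, (names n τ)[s d] = gs n τ d.1 := fun d => names_ix _
  have hs_eq : ∀ d d' : D, s d = s d' ↔ gs n τ d.1 = gs n τ d'.1 := by
    intro d d'
    constructor
    · intro h; exact ix_inj (hg.gs_valid (hD d)) (hg.gs_valid (hD d')) h
    · intro h
      simp only [s]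
      congr 1
  have hα : ∀ d, α (α d) = d := fun d => Subtype.ext (hg.ga_spec (hD d)).2.1
  have hφ : ∀ d, φ (φ (φ d)) = d := by
    intro d
    apply Subtype.ext
    show gp (gp (gp d.1)) = d.1
    simp only [gp, phi3]
  have hsα : ∀ d : D, gs n τ (α d).1 = gs n τ (gp d.1) := fun d => (hg.ga_spec (hD d)).2.2.1
  refine maximalPlanar_of_darts (gridGraph hg) s α φ hα hφ ?_ ?_ ?_ ?_ hg.connected ?_ ?_
  · intro d
    rw [hs_eq, hsα]
  · intro d d' h1 h2
    rw [hs_eq] at h1 h2
    rw [hsα, hsα] at h2
    exact Subtype.ext (hg.dart_inj (hD d) (hD d') h1 h2)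
  · intro u v
    constructor
    · intro h
      obtain ⟨d, hd, h1, h2⟩ := mem_edgeL.1 (show ((names n τ)[u], (names n τ)[v]) ∈ edgeL n τ from h)
      refine ⟨⟨d, mem_dartL.2 hd⟩, ?_, ?_⟩
      · rw [← ix_names u (VV_names u)]
        simp only [s]
        congr 1
      · rw [← ix_names v (VV_names v)]
        simp only [s]
        congr 1
        rw [hsα]
        exact h2
    · rintro ⟨d, rfl, rfl⟩
      show ((names n τ)[s d], (names n τ)[s (α d)]) ∈ edgeL n τ
      rw [hs, hs, hsα, mem_edgeL]
      exact ⟨d.1, hD d, rfl, rfl⟩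
  · -- rotation
    let R : D → D := fun x => φ (α x)
    have hRinj : Function.Injective R := by
      intro x y h
      have h1 : φ (φ (φ (α x))) = φ (φ (φ (α y))) := congrArg (fun z => φ (φ z)) h
      rw [hφ, hφ] at h1
      rw [← hα x, h1, hα]
    have hiter : ∀ (k : ℕ) (x : D), (R^[k] x).1 = (rot n τ)^[k] x.1 := by
      intro k
      induction k with
      | zero => intro x; rfl
      | succ k ih => intro x; rw [Function.iterate_succ_apply, Function.iterate_succ_apply, ih]; rfl
    intro d d' h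
    rw [hs_eq] at h
    obtain ⟨a, ha⟩ := hg.exists_rot_eq_can (hD d)
    obtain ⟨b, hb⟩ := hg.exists_rot_eq_can (hD d')
    have h1 : R^[a] d = R^[b] d' := Subtype.ext (by rw [hiter, hiter, ha, hb, h])
    have hper := hRinj.mem_periodicPts d'
    obtain ⟨p, hp0, hp⟩ := hper
    have h2 : R^[p * b] d' = d' := by
      have := Function.IsPeriodicPt.mul_const hp b
      exact this
    refine ⟨(p * b - b) + a, ?_⟩
    show R^[(p * b - b) + a] d = d'
    rw [Function.iterate_add_apply, h1, ← Function.iterate_add_apply]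
    have : p * b - b + b = p * b := Nat.sub_add_cancel (Nat.le_mul_of_pos_left b hp0)
    rw [this, h2]
  · rw [Nat.card_eq_fintype_card, Fintype.card_fin]
    have := hg.count
    have hn := hg.hn
    have h1 := length_names (n := n) (τ := τ)
    have h2 : 0 < (∑ i ∈ Finset.range (n + 2), ∑ j ∈ Finset.range n, (ownL (τ i j)).length) := by
      by_contra h
      rw [h1] at this
      have h3 : (dartL n τ).length = 0 := by omega
      have h4 : (0, 0, 0) ∈ dartL n τ := by
        rw [mem_dartL]
        refine ⟨by simp only; omega, by simp only; omega, ?_⟩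
        simp only [hg.top]
        decide +kernel
      rw [List.length_eq_zero_iff] at h3
      rw [h3] at h4
      simp at h4
    omega
  · have h1 : Nat.card D = (dartL n τ).length := by
      rw [← List.toFinset_card_of_nodup (nodup_dartL (n := n) (τ := τ))]
      exact Nat.subtype_card _ fun x => List.mem_toFinset
    rw [h1, Nat.card_eq_fintype_card, Fintype.card_fin]
    exact hg.count

end

end Pool.Agent.OOD
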