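import Pool.Agent.Lib.OOD.Graph
import Pool.Agent.Lib.CookLevin.ThreeCol

/-!
# From 3-colourability to the kinds of the blocks of the grid
-/

set_option autoImplicit false

namespace Pool.Agent.OOD

open Pool.Agent.Lib.CookLevin

/-- the list of the ends of the edges, padded to length at least 3 -/
def lst (E : List (ℕ × ℕ)) : List ℕ := E.flatMap (fun e => [e.1, e.2]) ++ [0, 0, 0]

/-- The kind of a block: `0` = top wedge, `1` = bottom wedge, `2` = crossing,
`3` = crossing with different values, `4` = crossing with equal values. -/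
def kindOf (E : List (ℕ × ℕ)) (i j : ℕ) : ℕ :=
  if i = 0 then 0 else if i = (lst E).length + 1 then 1 else
    if (lst E).getD (i - 1) 0 = (lst E).getD j 0 then 4
    else if ((lst E).getD (i - 1) 0, (lst E).getD j 0) ∈ E ∨
      ((lst E).getD j 0, (lst E).getD (i - 1) 0) ∈ E then 3 else 2

theorem good_kindOf (E : List (ℕ × ℕ)) : Good (lst E).length (kindOf E) where
  hn := by simp [lst]
  top j := by simp [kindOf]
  bot j := by simp [kindOf]
  mid i j h1 h2 := by
    unfold kindOf
    rw [if_neg (by omega), if_neg (by omega)]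
    split_ifs <;> omega

theorem threeCol_iff_xy {E : List (ℕ × ℕ)} (hE : ∀ e ∈ E, e.1 ≠ e.2) :
    ThreeColourable E ↔ ∃ X Y : ℕ → Fin 3, ∀ i j, 1 ≤ i → i ≤ (lst E).length →
      j < (lst E).length → (kindOf E i j = 3 → X i ≠ Y j) ∧ (kindOf E i j = 4 → X i = Y j) := by
  constructor
  · rintro ⟨c, hc⟩
    refine ⟨fun i => c ((lst E).getD (i - 1) 0), fun j => c ((lst E).getD j 0), ?_⟩
    intro i j h1 h2 _
    unfold kindOf
    rw [if_neg (by omega), if_neg (by omega)]
    split_ifs with h3 h4
    · refine ⟨fun h => by omega, fun _ => ?_⟩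
      show c ((lst E).getD (i - 1) 0) = c ((lst E).getD j 0)
      rw [h3]
    · refine ⟨fun _ => ?_, fun h => by omega⟩
      rcases h4 with h4 | h4
      · exact hc _ h4
      · exact fun h => hc _ h4 h.symm
    · omega
  · rintro ⟨X, Y, hXY⟩
    refine ⟨fun a => Y ((lst E).idxOf a), ?_⟩
    rintro ⟨a, b⟩ he
    have hab : a ≠ b := hE _ he
    have ha : a ∈ lst E := by
      unfold lst
      rw [List.mem_append, List.mem_flatMap]
      exact Or.inl ⟨_, he, by simp⟩
    have hb : b ∈ lst E := by
      unfold lst
      rw [List.mem_append, List.mem_flatMap]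
      exact Or.inl ⟨_, he, by simp⟩
    have ja := List.idxOf_lt_length_iff.2 ha
    have jb := List.idxOf_lt_length_iff.2 hb
    have ga : (lst E).getD ((lst E).idxOf a) 0 = a := by
      rw [List.getD_eq_getElem _ _ ja]; exact List.getElem_idxOf ja
    have gb : (lst E).getD ((lst E).idxOf b) 0 = b := by
      rw [List.getD_eq_getElem _ _ jb]; exact List.getElem_idxOf jb
    have k4 : kindOf E ((lst E).idxOf a + 1) ((lst E).idxOf a) = 4 := by
      unfold kindOf
      rw [if_neg (by omega), if_neg (by omega), Nat.add_sub_cancel, if_pos rfl]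
    have k3 : kindOf E ((lst E).idxOf a + 1) ((lst E).idxOf b) = 3 := by
      unfold kindOf
      rw [if_neg (by omega), if_neg (by omega), Nat.add_sub_cancel, ga, gb, if_neg hab,
        if_pos (Or.inl he)]
    have e1 := (hXY _ _ (by omega) (by omega) ja).2 k4
    have e2 := (hXY _ _ (by omega) (by omega) jb).1 k3
    show Y ((lst E).idxOf a) ≠ Y ((lst E).idxOf b)
    rw [← e1]
    exact e2

end Pool.Agent.OOD
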