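import Pool.Agent.Lib.OOD.Graph

/-!
# The darts around a vertex of the grid graph form one cycle
-/

set_option autoImplicit false

namespace Pool.Agent.OOD

/-- rank of a reference among the blocks around the vertex -/
def rkR (n j r : ℕ) : ℕ :=
  if r = 1020 then (n - j) % n else if r = 1021 then j else
  if r % 4 = 0 then 0 else if r % 4 = 2 then 1 else if r % 4 = 3 then 2 else if r = 1 then 3 else 1

/-- the canonical dart at a vertex -/
def canD (n : ℕ) (τ : ℕ → ℕ → ℕ) (v : ℕ × ℕ × ℕ) : ℕ × ℕ × ℕ :=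
  if v.1 = n + 2 then (if v.2.2 = 0 then (0, 0, 24) else (n + 1, 0, 27))
  else (v.1, v.2.1, can (τ v.1 v.2.1) v.2.2)

/-- rotation around the initial vertex -/
def rot (n : ℕ) (τ : ℕ → ℕ → ℕ) (d : ℕ × ℕ × ℕ) : ℕ × ℕ × ℕ := gp (ga n τ d)

section

variable {n : ℕ} {τ : ℕ → ℕ → ℕ}

lemma dir_24 : dir 0 24 = 1 := by decide +kernel
lemma dir_27 : dir 1 27 = 2 := by decide +kernel

lemma Good.rot_valid (hg : Good n τ) {d : ℕ × ℕ × ℕ} (hd : DV n τ d) : DV n τ (rot n τ d) :=
  gp_valid hg (hg.ga_spec hd).1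

lemma Good.gs_rot (hg : Good n τ) {d : ℕ × ℕ × ℕ} (hd : DV n τ d) :
    gs n τ (rot n τ d) = gs n τ d := (hg.ga_spec hd).2.2.2

/-- measure of a dart -/
def msr (n : ℕ) (τ : ℕ → ℕ → ℕ) (d : ℕ × ℕ × ℕ) : ℕ :=
  64 * rkR n d.2.1 (src (τ d.1 d.2.1) d.2.2) + hh (τ d.1 d.2.1) d.2.2

lemma hh_lt (τ e : ℕ) : hh τ e < 64 := Nat.mod_lt _ (by norm_num)

lemma apex_top (hg : Good n τ) {i j r : ℕ} (hi : i < n + 2) (hr : vref (τ i j) r = true)
    (h : r = 1020) : τ i j = 0 ∧ i = 0 := by
  simp only [vref, Bool.or_eq_true, Bool.and_eq_true, decide_eq_true_eq] at hr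
  have h0 : τ i j = 0 := by
    rcases hr with ((⟨⟨h1, h2⟩, h3⟩ | ⟨h0, h1⟩) | ⟨h0, h1⟩) | ⟨h0, h1⟩ <;> omega
  exact ⟨h0, hg.tau_eq_zero hi h0⟩

lemma apex_bot (hg : Good n τ) {i j r : ℕ} (hi : i < n + 2) (hr : vref (τ i j) r = true)
    (h : r = 1021) : τ i j = 1 ∧ i = n + 1 := by
  simp only [vref, Bool.or_eq_true, Bool.and_eq_true, decide_eq_true_eq] at hr
  have h0 : τ i j = 1 := by
    rcases hr with ((⟨⟨h1, h2⟩, h3⟩ | ⟨h0, h1⟩) | ⟨h0, h1⟩) | ⟨h0, h1⟩ <;> omega
  exact ⟨h0, hg.tau_eq_one hi h0⟩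

/-- A dart is canonical or the rotation makes the measure smaller. -/
theorem Good.msr_rot (hg : Good n τ) {d : ℕ × ℕ × ℕ} (hd : DV n τ d) :
    d = canD n τ (gs n τ d) ∨ msr n τ (rot n τ d) < msr n τ d := by
  have hn := hg.hn
  obtain ⟨i, j, e⟩ := d
  obtain ⟨hi, hj, he⟩ := hd
  simp only at hi hj he
  have hτ := hg.lt5 j hi
  have h1 := loc1 hτ he
  have hE := locE hτ he
  have h2 := loc2 hτ he
  simp only [chk1, Bool.and_eq_true, Bool.or_eq_true, Bool.not_eq_true', decide_eq_true_eq,
    decide_eq_false_iff_not] at h1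
  simp only [chkE, Bool.and_eq_true, Bool.or_eq_true, Bool.not_eq_true', decide_eq_true_eq,
    decide_eq_false_iff_not] at hE
  simp only [chk2, Bool.and_eq_true, Bool.or_eq_true, Bool.not_eq_true', decide_eq_true_eq,
    decide_eq_false_iff_not] at h2
  obtain ⟨⟨⟨-, hv⟩, -⟩, h1⟩ := h1
  obtain ⟨⟨⟨⟨⟨h2a, h2b⟩, h2c⟩, h2d⟩, h2e⟩, h2f⟩ := h2
  by_cases hh0 : hh (τ i j) e = 0
  swap
  · -- inside a fan
    right
    rcases h2a with h | ⟨h3, h4⟩
    · exact absurd h hh0
    rcases h1 with h | ⟨⟨⟨⟨-, h5⟩, h6⟩, h7⟩, h8⟩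
    · exact absurd h3 h
    have hr : rot n τ (i, j, e) = (i, j, phi (rev (τ i j) e)) := by simp [rot, ga, gp, h3]
    rw [hr]
    have hs : src (τ i j) (phi (rev (τ i j) e)) = src (τ i j) e := h8
    simp only [msr, hs]
    omega
  -- the last dart of a fan
  by_cases hlt : src (τ i j) e < 1020
  swap
  · -- apexes
    have hb := (hg.vref_bound hi hv).1
    have h3 : src (τ i j) e = 1020 ∨ src (τ i j) e = 1021 := by omega
    rcases h3 with h3 | h3
    · obtain ⟨ht, rfl⟩ := apex_top hg hi hv h3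
      have he24 : e = 24 := by
        rcases h2d with h | h | h
        · exact absurd h3 h
        · exact absurd hh0 h
        · exact h
      subst he24
      have hd1 : dir (τ 0 j) 24 = 1 := by rw [ht]; exact dir_24
      by_cases hj0 : j = 0
      · left
        subst hj0
        simp [canD, gs, h3, gv]
      · right
        have h := locH hτ (hg.lt5 (sc n j) hi) (hg.compH' j (sc n j) hi) he
        simp only [chkH, Bool.and_eq_true, Bool.or_eq_true, Bool.not_eq_true', decide_eq_true_eq,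
          decide_eq_false_iff_not, eqH] at h
        rcases h with h | ⟨⟨⟨⟨h3', h4⟩, h5⟩, h6⟩, h7⟩
        · exact absurd hd1 h
        have h8 : tgt (τ 0 (sc n j)) (rev (τ 0 j) 24) = 1020 := by omega
        have hr : rot n τ (0, j, 24) = (0, sc n j, phi (rev (τ 0 j) 24)) := by
          simp [rot, ga, gp, hd1]
        have hs : src (τ 0 (sc n j)) (phi (rev (τ 0 j) 24)) = 1020 := h8
        rw [hr]
        simp only [msr, hs, h3, hh0]
        have hrk : rkR n (sc n j) 1020 + 1 = rkR n j 1020 := by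
          simp only [rkR, if_true]
          unfold sc
          by_cases h9 : j + 1 = n
          · rw [if_pos h9, Nat.sub_zero, Nat.mod_self, Nat.mod_eq_of_lt (by omega)]; omega
          · rw [if_neg h9, Nat.mod_eq_of_lt (by omega), Nat.mod_eq_of_lt (by omega)]; omega
        have := hh_lt (τ 0 (sc n j)) (phi (rev (τ 0 j) 24))
        omega
    · obtain ⟨ht, rfl⟩ := apex_bot hg hi hv h3
      have he27 : e = 27 := by
        rcases h2e with h | h | h
        · exact absurd h3 h
        · exact absurd hh0 h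
        · exact h.1
      subst he27
      have hd2 : dir (τ (n + 1) j) 27 = 2 := by rw [ht]; exact dir_27
      by_cases hj0 : j = 0
      · left
        subst hj0
        simp [canD, gs, h3, gv]
      · right
        have h := locH' (hg.lt5 (pc n j) hi) hτ (hg.compH' (pc n j) j hi) he
        simp only [chkH', Bool.and_eq_true, Bool.or_eq_true, Bool.not_eq_true', decide_eq_true_eq,
          decide_eq_false_iff_not] at h
        rcases h with h | ⟨⟨h4, h5⟩, h6⟩
        · exact absurd hd2 h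
        have h' := locH (hg.lt5 (pc n j) hi) hτ (hg.compH' (pc n j) j hi) h4
        simp only [chkH, Bool.and_eq_true, Bool.or_eq_true, Bool.not_eq_true', decide_eq_true_eq,
          decide_eq_false_iff_not, eqH] at h'
        rcases h' with h' | ⟨⟨⟨⟨-, -⟩, -⟩, h7⟩, h8⟩
        · exact absurd h5 h'
        rw [h6] at h7 h8
        have h9 : tgt (τ (n + 1) (pc n j)) (rev (τ (n + 1) j) 27) = 1021 := by omega
        have hr : rot n τ (n + 1, j, 27) = (n + 1, pc n j, phi (rev (τ (n + 1) j) 27)) := by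
          simp [rot, ga, gp, hd2]
        have hs : src (τ (n + 1) (pc n j)) (phi (rev (τ (n + 1) j) 27)) = 1021 := h9
        rw [hr]
        simp only [msr, hs, h3, hh0]
        have hrk : rkR n (pc n j) 1021 + 1 = rkR n j 1021 := by
          simp only [rkR]
          norm_num
          unfold pc
          rw [if_neg hj0]; omega
        have := hh_lt (τ (n + 1) (pc n j)) (phi (rev (τ (n + 1) j) 27))
        omega
  -- ordinary vertices
  by_cases hown : src (τ i j) e % 4 = 0
  · left
    have hcan : can (τ i j) (src (τ i j) e / 4) = e := by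
      rcases h2b with ((h | h) | h) | h
      · exact absurd hh0 h
      · exact absurd hown h
      · exact absurd hlt h
      · exact h
    have hgs : gs n τ (i, j, e) = (i, j, src (τ i j) e / 4) := by
      have h3 : gs n τ (i, j, e) = gv n i j (src (τ i j) e) := rfl
      rw [h3, gv_lt hlt, if_neg (by omega : ¬ (src (τ i j) e / 2 % 2 = 1)),
        (by omega : src (τ i j) e % 2 = 0), Nat.add_zero]
    rw [hgs]
    unfold canD
    rw [if_neg (by show ¬ i = n + 2; omega)]
    simp only [hcan]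
  right
  have hdir0 : dir (τ i j) e ≠ 0 := by
    rcases h2c with (h | h) | h
    · exact absurd hh0 h
    · exact absurd h hown
    · exact h
  rcases h2f with h2f | ⟨⟨⟨⟨⟨-, h5⟩, f1⟩, f2⟩, f3⟩, f4⟩
  · exact absurd h2f hdir0
  have hcase : dir (τ i j) e = 1 ∨ dir (τ i j) e = 2 ∨ dir (τ i j) e = 3 ∨ dir (τ i j) e = 4 := by
    omega
  rcases hcase with d1 | d2 | d3 | d4
  · have h := locH hτ (hg.lt5 (sc n j) hi) (hg.compH' j (sc n j) hi) he
    simp only [chkH, Bool.and_eq_true, Bool.or_eq_true, Bool.not_eq_true', decide_eq_true_eq,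
      decide_eq_false_iff_not, eqH] at h
    rcases h with h | ⟨⟨⟨⟨h3, h4⟩, h5⟩, h6⟩, h7⟩
    · exact absurd d1 h
    have hr : rot n τ (i, j, e) = (i, sc n j, phi (rev (τ i j) e)) := by simp [rot, ga, gp, d1]
    have hs : src (τ i (sc n j)) (phi (rev (τ i j) e)) = tgt (τ i (sc n j)) (rev (τ i j) e) := rfl
    have hm : src (τ i j) e % 4 = 2 := by
      rcases f1 with (h | h) | h
      · exact absurd d1 h
      · exact h
      · omega
    have e1 : rkR n j (src (τ i j) e) = 1 := by
      unfold rkR; rw [if_neg (by omega), if_neg (by omega), if_neg (by omega), if_pos hm]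
    have e2 : rkR n (sc n j) (tgt (τ i (sc n j)) (rev (τ i j) e)) = 0 := by
      unfold rkR; rw [if_neg (by omega), if_neg (by omega), if_pos (by omega)]
    rw [hr]
    simp only [msr, hs, e1, e2]
    have := hh_lt (τ i (sc n j)) (phi (rev (τ i j) e))
    omega
  · have h := locH' (hg.lt5 (pc n j) hi) hτ (hg.compH' (pc n j) j hi) he
    simp only [chkH', Bool.and_eq_true, Bool.or_eq_true, Bool.not_eq_true', decide_eq_true_eq,
      decide_eq_false_iff_not] at h
    rcases h with h | ⟨⟨h3, h4⟩, h5⟩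
    · exact absurd d2 h
    have h' := locH (hg.lt5 (pc n j) hi) hτ (hg.compH' (pc n j) j hi) h3
    simp only [chkH, Bool.and_eq_true, Bool.or_eq_true, Bool.not_eq_true', decide_eq_true_eq,
      decide_eq_false_iff_not, eqH] at h'
    rcases h' with h' | ⟨⟨⟨⟨-, -⟩, -⟩, h6⟩, h7⟩
    · exact absurd h4 h'
    rw [h5] at h6 h7
    have hr : rot n τ (i, j, e) = (i, pc n j, phi (rev (τ i j) e)) := by simp [rot, ga, gp, d2]
    have hs : src (τ i (pc n j)) (phi (rev (τ i j) e)) = tgt (τ i (pc n j)) (rev (τ i j) e) := rfl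
    have hm : src (τ i j) e = 1 := by
      rcases f2 with ((h | h) | h) | h
      · exact absurd d2 h
      · exact absurd h hown
      · exact h
      · omega
    have hm' : tgt (τ i (pc n j)) (rev (τ i j) e) = 3 := by omega
    have e1 : rkR n j (src (τ i j) e) = 3 := by rw [hm]; rfl
    have e2 : rkR n (pc n j) (tgt (τ i (pc n j)) (rev (τ i j) e)) = 2 := by rw [hm']; rfl
    rw [hr]
    simp only [msr, hs, e1, e2]
    have := hh_lt (τ i (pc n j)) (phi (rev (τ i j) e))
    omega
  · have hi' : i + 1 < n + 2 := by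
      rcases hE.2 with h | h
      · have : i ≠ n + 1 := fun h' => h (by rw [h', hg.bot])
        omega
      · exact absurd d3 h
    have h := locV hτ (hg.lt5 j hi') (hg.compV' j hi') he
    simp only [chkV, Bool.and_eq_true, Bool.or_eq_true, Bool.not_eq_true', decide_eq_true_eq,
      decide_eq_false_iff_not, eqV] at h
    rcases h with h | ⟨⟨⟨⟨h3, h4⟩, h5⟩, h6⟩, h7⟩
    · exact absurd d3 h
    have hr : rot n τ (i, j, e) = (i + 1, j, phi (rev (τ i j) e)) := by simp [rot, ga, gp, d3]
    have hs : src (τ (i + 1) j) (phi (rev (τ i j) e)) = tgt (τ (i + 1) j) (rev (τ i j) e) := rfl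
    rw [hr]
    simp only [msr, hs]
    have hb := hh_lt (τ (i + 1) j) (phi (rev (τ i j) e))
    rcases f3 with (h | h) | ⟨⟨h, h'⟩, h''⟩
    · exact absurd d3 h
    · have e1 : rkR n j (src (τ i j) e) = 2 := by rw [h]; rfl
      have e2 : tgt (τ (i + 1) j) (rev (τ i j) e) = 2 := by omega
      have e3 : rkR n j (tgt (τ (i + 1) j) (rev (τ i j) e)) = 1 := by rw [e2]; rfl
      omega
    · have e1 : rkR n j (src (τ i j) e) = 1 := by
        unfold rkR
        rw [if_neg (by omega), if_neg (by omega), if_neg (by omega), if_neg (by omega),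
          if_neg (by omega), if_neg h']
      have e3 : rkR n j (tgt (τ (i + 1) j) (rev (τ i j) e)) = 0 := by
        unfold rkR; rw [if_neg (by omega), if_neg (by omega), if_pos (by omega)]
      omega
  · exfalso
    rcases f4 with h | h
    · exact absurd d4 h
    · omega

theorem Good.exists_rot_eq_can (hg : Good n τ) {d : ℕ × ℕ × ℕ} (hd : DV n τ d) :
    ∃ k : ℕ, (rot n τ)^[k] d = canD n τ (gs n τ d) := by
  induction h : msr n τ d using Nat.strong_induction_on generalizing d with
  | _ m ih =>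
    rcases hg.msr_rot hd with h1 | h1
    · exact ⟨0, h1⟩
    · obtain ⟨k, hk⟩ := ih _ (h ▸ h1) (hg.rot_valid hd) rfl
      refine ⟨k + 1, ?_⟩
      rw [Function.iterate_succ_apply, hk, hg.gs_rot hd]

end

end Pool.Agent.OOD
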