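import Pool.Agent.Lib.OOD.MaxPlanar

/-!
# From a partition of the grid graph to a 3-colouring of the rows and columns
-/

set_option autoImplicit false

namespace Pool.Agent.OOD

open SimpleGraph

/-! ### Cycles in forests -/

lemma no_cyc {V : Type*} {G : SimpleGraph V} {S : Set V} (h : (G.induce S).IsAcyclic) {n : ℕ}
    (f : Fin (n + 3) → V) (hf : Function.Injective f) (hS : ∀ i, f i ∈ S)
    (hadj : ∀ i, G.Adj (f i) (f (i + 1))) : False := by
  rw [isAcyclic_iff_free_cycleGraph] at h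
  refine h (n + 3) (by omega) ⟨⟨⟨fun i => (⟨f i, hS i⟩ : S), ?_⟩, ?_⟩⟩
  · intro a b hab
    show G.Adj (f a) (f b)
    rcases (cycleGraph_adj (n := n + 1)).1 hab with h1 | h1
    · have : a = b + 1 := by rw [← h1]; abel
      rw [this]; exact (hadj b).symm
    · have : b = a + 1 := by rw [← h1]; abel
      rw [this]; exact hadj a
  · intro a b hab
    have : f a = f b := congrArg Subtype.val hab
    exact hf this

/-- cyclic orders of 13 cycles of the edge gadget -/
def cycL : List (List ℕ) :=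
  [[0, 1, 2], [0, 1, 6, 8, 3], [0, 1, 7, 3], [0, 1, 6, 4], [0, 1, 7, 8, 4], [0, 1, 5],
    [0, 1, 7, 8, 9], [0, 2, 3], [0, 3, 8, 4], [0, 3, 9], [0, 4, 9], [1, 6, 7], [6, 7, 8]]

/-- the list is a cycle of the gadget -/
def cycOK (l : List ℕ) : Bool :=
  decide (3 ≤ l.length) && decide l.Nodup && l.all (fun a => decide (a < 10)) &&
    (List.range l.length).all fun i =>
      decide ((l.getD i 0, l.getD ((i + 1) % l.length) 0) ∈ eeL) ||
        decide ((l.getD ((i + 1) % l.length) 0, l.getD i 0) ∈ eeL)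

theorem cycL_ok : ∀ l ∈ cycL, cycOK l = true := by decide +kernel

/-- every colouring of the gadget in which the two ends have colour `2` is wrong -/
def gadChk (x : ℕ) : Bool :=
  let c : ℕ → ℕ := fun a => if a < 2 then 2 else (x / 3 ^ (a - 2)) % 3
  eeL.any (fun p => decide (c p.1 = c p.2) && !decide (c p.1 = 2)) ||
    cycL.any (fun l => l.all fun a => decide (c a = 2))

theorem gadChk_all : (List.range 6561).all gadChk = true := by decide +kernel

/-- the two ends of the edge gadget have different colours -/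
theorem gadget_ne {V : Type*} {G : SimpleGraph V} {p : V → Fin 3}
    (hp : ∀ a b, G.Adj a b → p a = p b → p a = 2) (hf : (G.induce {v | p v = 2}).IsAcyclic)
    (m : ℕ → V) (hinj : ∀ a < 10, ∀ b < 10, m a = m b → a = b)
    (hadj : ∀ q ∈ eeL, G.Adj (m q.1) (m q.2)) : p (m 0) ≠ p (m 1) := by
  intro h01
  have h0 : p (m 0) = 2 := hp _ _ (hadj (0, 1) (by decide)) h01
  have h1 : p (m 1) = 2 := by rw [← h01]; exact h0
  -- the code of the colouring
  let x : ℕ := (p (m 2)).val + 3 * ((p (m 3)).val + 3 * ((p (m 4)).val + 3 * ((p (m 5)).val +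
    3 * ((p (m 6)).val + 3 * ((p (m 7)).val + 3 * ((p (m 8)).val + 3 * (p (m 9)).val))))))
  have b2 := (p (m 2)).isLt
  have b3 := (p (m 3)).isLt
  have b4 := (p (m 4)).isLt
  have b5 := (p (m 5)).isLt
  have b6 := (p (m 6)).isLt
  have b7 := (p (m 7)).isLt
  have b8 := (p (m 8)).isLt
  have b9 := (p (m 9)).isLt
  have hx : x < 6561 := by show _ < 6561; omega
  have hc : ∀ a < 10, (if a < 2 then 2 else (x / 3 ^ (a - 2)) % 3) = (p (m a)).val := by
    intro a ha
    have e0 : ((2 : Fin 3) : ℕ) = 2 := rfl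
    interval_cases a
    · rw [h0]; rfl
    · rw [h1]; rfl
    all_goals
      norm_num
      show (_ : ℕ) = _
      simp only [x]
      omega
  have hchk := List.all_eq_true.1 gadChk_all x (List.mem_range.2 hx)
  simp only [gadChk, Bool.or_eq_true, List.any_eq_true, Bool.and_eq_true, Bool.not_eq_true',
    decide_eq_true_eq, decide_eq_false_iff_not, List.all_eq_true] at hchk
  have hee : ∀ q ∈ eeL, q.1 < 10 ∧ q.2 < 10 := by decide
  rcases hchk with ⟨q, hq, h2, h3⟩ | ⟨l, hl, h2⟩
  · obtain ⟨q1, q2⟩ := hee q hq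
    rw [hc _ q1, hc _ q2] at h2
    rw [hc _ q1] at h3
    have := hp _ _ (hadj q hq) (Fin.ext h2)
    rw [this] at h3
    exact h3 rfl
  · have hok := cycL_ok l hl
    simp only [cycOK, Bool.or_eq_true, Bool.and_eq_true, decide_eq_true_eq, List.all_eq_true,
      List.mem_range] at hok
    obtain ⟨⟨⟨k1, k2⟩, k3⟩, k4⟩ := hok
    obtain ⟨N, hN⟩ : ∃ N, l.length = N + 3 := ⟨l.length - 3, by omega⟩
    have hlt : ∀ i : Fin (N + 3), i.val < l.length := fun i => by rw [hN]; exact i.isLt
    have hmem : ∀ i : Fin (N + 3), l.getD i.val 0 ∈ l := fun i => by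
      rw [List.getD_eq_getElem _ _ (hlt i)]; exact List.getElem_mem _
    refine no_cyc hf (n := N) (fun i => m (l.getD i.val 0)) ?_ ?_ ?_
    · intro i j hij
      have h4 := hinj _ (k3 _ (hmem i)) _ (k3 _ (hmem j)) hij
      rw [List.getD_eq_getElem _ _ (hlt i), List.getD_eq_getElem _ _ (hlt j)] at h4
      exact Fin.ext ((List.Nodup.getElem_inj_iff k2).1 h4)
    · intro i
      show p _ = 2
      have := h2 _ (hmem i)
      rw [hc _ (k3 _ (hmem i))] at this
      exact Fin.ext this
    · intro i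
      have h4 := k4 i.val (hlt i)
      have h5 : ((i + 1 : Fin (N + 3)) : ℕ) = (i.val + 1) % l.length := by
        rw [hN, Fin.val_add]; simp
      show G.Adj (m _) (m (l.getD ((i + 1 : Fin (N + 3)) : ℕ) 0))
      rw [h5]
      rcases h4 with h4 | h4
      · exact hadj _ h4
      · exact (hadj _ h4).symm

/-! ### The pairs of vertices joined by edge gadgets -/

/-- the pairs of references joined by edge gadgets in a block of kind `t` -/
def pairL (t : ℕ) : List (ℕ × ℕ) :=
  [(28, 32), (48, 8), (32, 8), (36, 32), (8, 52), (52, 36), (28, 36), (52, 22), (36, 22), (40, 36),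
    (22, 56), (56, 40), (28, 40), (56, 9), (40, 9), (44, 40), (9, 60), (60, 44), (28, 44), (60, 20),
    (44, 20), (32, 44), (20, 48), (48, 32)] ++
  (if t = 3 then [(20, 8)] else []) ++ (if t = 4 then [(832, 20), (832, 48), (832, 8)] else [])

/-- the pairs are the ends of edge gadgets -/
def pairChk (t : ℕ) : Bool :=
  (pairL t).all fun q => (List.range (ngN t)).any fun g =>
    decide (gad t g 0 = q.1) && decide (gad t g 1 = q.2)

theorem pairChk_all : ∀ t < 5, 2 ≤ t → pairChk t = true := by decide +kernel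

/-- every vertex of the gadget is the initial or terminal vertex of a dart of the gadget -/
lemma eeL_cover : ∀ a < 10, ∃ q ∈ eeL.zipIdx, q.1.1 = a ∨ q.1.2 = a := by decide +kernel

section

variable {n : ℕ} {τ : ℕ → ℕ → ℕ}

/-- colour of a vertex given by its name -/
noncomputable def colq (p : Fin (names n τ).length → Fin 3) (v : ℕ × ℕ × ℕ) : Fin 3 := by
  classical exact if h : VV n τ v then p (ix v h) else 0

theorem Good.gad_ne (hg : Good n τ) {p : Fin (names n τ).length → Fin 3}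
    (hp : ∀ a b, (gridGraph hg).Adj a b → p a = p b → p a = 2)
    (hf : ((gridGraph hg).induce {v | p v = 2}).IsAcyclic) {i j g : ℕ} (hi : i < n + 2)
    (hj : j < n) (hgN : g < ngN (τ i j)) :
    colq p (gv n i j (gad (τ i j) g 0)) ≠ colq p (gv n i j (gad (τ i j) g 1)) := by
  have hτ := hg.lt5 j hi
  have h7 := loc7 hτ
  simp only [chk7, Bool.and_eq_true, List.all_eq_true, List.mem_range, Bool.or_eq_true,
    Bool.not_eq_true', decide_eq_true_eq, decide_eq_false_iff_not] at h7
  obtain ⟨h7a, h7b⟩ := h7 g hgN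
  have hD : ∀ q ∈ eeL.zipIdx, DV n τ (i, j, pk 11 (gedN (τ i j)) (24 * g + q.2)) :=
    fun q hq => ⟨hi, hj, (h7a q hq).1.1⟩
  have hvr : ∀ a < 10, vref (τ i j) (gad (τ i j) g a) = true := by
    intro a ha
    obtain ⟨q, hq, h⟩ := eeL_cover a ha
    rcases h with h | h
    · have := hg.vref_src (hD q hq)
      simp only at this
      rw [(h7a q hq).1.2, h] at this
      exact this
    · have := hg.vref_src (gp_valid hg (hD q hq))
      have h2 := (h7a q hq).2
      rw [h] at h2
      rw [← h2]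
      exact this
  have hVV : ∀ a < 10, VV n τ (gv n i j (gad (τ i j) g a)) := fun a ha =>
    hg.gv_valid hi hj (hvr a ha)
  have h0 : VV n τ (gv n i j (gad (τ i j) g 0)) := hVV 0 (by norm_num)
  let m : ℕ → Fin (names n τ).length := fun a =>
    if ha : a < 10 then ix _ (hVV a ha) else ix _ h0
  have hm : ∀ a (ha : a < 10), m a = ix _ (hVV a ha) := fun a ha => dif_pos ha
  have key := gadget_ne hp hf m ?_ ?_
  · rw [hm 0 (by norm_num), hm 1 (by norm_num)] at key
    have e1 : colq p (gv n i j (gad (τ i j) g 0)) = p (ix _ (hVV 0 (by norm_num))) := dif_pos _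
    have e2 : colq p (gv n i j (gad (τ i j) g 1)) = p (ix _ (hVV 1 (by norm_num))) := dif_pos _
    rw [e1, e2]
    exact key
  · intro a ha b hb hab
    rw [hm a ha, hm b hb] at hab
    have h1 := hg.gv_inj hi hj (hvr a ha) (hvr b hb) (ix_inj _ _ hab)
    rcases h7b a ha b hb with h2 | h2
    · exact h2
    · exact absurd h1 h2
  · intro q hq
    obtain ⟨k, hk, hk'⟩ := List.getElem_of_mem hq
    have hmem : (q, k) ∈ eeL.zipIdx := by
      rw [List.mem_zipIdx_iff_getElem?]
      rw [List.getElem?_eq_getElem hk, hk']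
    have hlt : q.1 < 10 ∧ q.2 < 10 := by
      have : ∀ q ∈ eeL, q.1 < 10 ∧ q.2 < 10 := by decide
      exact this q hq
    rw [hm _ hlt.1, hm _ hlt.2]
    show ((names n τ)[ix _ _], (names n τ)[ix _ _]) ∈ edgeL n τ
    rw [names_ix, names_ix, mem_edgeL]
    refine ⟨_, hD _ hmem, ?_, ?_⟩
    · show gv n i j _ = _
      rw [(h7a _ hmem).1.2]
    · show gv n i j _ = _
      exact congrArg _ (h7a _ hmem).2

theorem Good.pair_ne (hg : Good n τ) {p : Fin (names n τ).length → Fin 3}
    (hp : ∀ a b, (gridGraph hg).Adj a b → p a = p b → p a = 2)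
    (hf : ((gridGraph hg).induce {v | p v = 2}).IsAcyclic) {i j : ℕ} (hi1 : 1 ≤ i) (hi : i ≤ n)
    (hj : j < n) {q : ℕ × ℕ} (hq : q ∈ pairL (τ i j)) :
    colq p (gv n i j q.1) ≠ colq p (gv n i j q.2) := by
  obtain ⟨h2, h5⟩ := hg.mid i j hi1 hi
  have h := pairChk_all _ h5 h2
  simp only [pairChk, List.all_eq_true, List.any_eq_true, List.mem_range, Bool.and_eq_true,
    decide_eq_true_eq] at h
  obtain ⟨g, hgN, e1, e2⟩ := h q hq
  rw [← e1, ← e2]
  exact hg.gad_ne hp hf (by omega) hj hgN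

lemma two_eq : ∀ a b x y : Fin 3, a ≠ b → x ≠ a → x ≠ b → y ≠ a → y ≠ b → x = y := by
  decide +kernel

lemma corner : ∀ e B x C y : Fin 3, e ≠ B → C ≠ x → C ≠ B → y ≠ C → y ≠ B → x = e → y = e := by
  decide +kernel

lemma last_eq : ∀ e E l r : Fin 3, e ≠ E → l ≠ E → r ≠ E → (l = e ↔ r = e) → l = r := by
  decide +kernel

/-- the crossing gadget -/
theorem cross_core {e N E S W NW NE SE SW t r b l : Fin 3}
    (h1 : e ≠ N) (h2 : NW ≠ t) (h3 : N ≠ t) (h4 : E ≠ N) (h5 : t ≠ NE) (h6 : NE ≠ E) (h7 : e ≠ E)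
    (h8 : NE ≠ r) (h9 : E ≠ r) (h10 : S ≠ E) (h11 : r ≠ SE) (h12 : SE ≠ S) (h13 : e ≠ S)
    (h14 : SE ≠ b) (h15 : S ≠ b) (h16 : W ≠ S) (h17 : b ≠ SW) (h18 : SW ≠ W) (h19 : e ≠ W)
    (h20 : SW ≠ l) (h21 : W ≠ l) (h22 : N ≠ W) (h23 : l ≠ NW) (h24 : NW ≠ N) : l = r ∧ t = b := by
  have hS : N = S := two_eq e E N S h7 h1.symm h4.symm h13.symm h10
  have hW : E = W := two_eq e N E W h1 h7.symm h4 h19.symm h22.symm
  subst hS hW
  have a1 : t = e → r = e := corner e E t NE r h7 h5.symm h6 h8.symm h9.symm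
  have a2 : r = e → b = e := corner e N r SE b h1 h11.symm h12 h14.symm h15.symm
  have a3 : b = e → l = e := corner e E b SW l h7 h17.symm h18 h20.symm h21.symm
  have a4 : l = e → t = e := corner e N l NW t h1 h23.symm h24 h2.symm h3.symm
  exact ⟨last_eq e E l r h7 h21.symm h9.symm ⟨fun h => a1 (a4 h), fun h => a3 (a2 h)⟩,
    last_eq e N t b h1 h3.symm h15.symm ⟨fun h => a2 (a1 h), fun h => a4 (a3 h)⟩⟩

theorem eq_core {m t NW l : Fin 3} (h1 : m ≠ t) (h2 : m ≠ NW) (h3 : NW ≠ t) (h4 : m ≠ l)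
    (h5 : l ≠ NW) : l = t :=
  two_eq m NW l t h2 h4.symm h5 h1.symm h3.symm

theorem Good.block_core (hg : Good n τ) {p : Fin (names n τ).length → Fin 3}
    (hp : ∀ a b, (gridGraph hg).Adj a b → p a = p b → p a = 2)
    (hf : ((gridGraph hg).induce {v | p v = 2}).IsAcyclic) {i j : ℕ} (hi1 : 1 ≤ i) (hi : i ≤ n)
    (hj : j < n) :
    colq p (i, j, 5) = colq p (i, sc n j, 5) ∧ colq p (i, j, 2) = colq p (i + 1, j, 2) ∧
      (τ i j = 3 → colq p (i, j, 5) ≠ colq p (i, j, 2)) ∧
      (τ i j = 4 → colq p (i, j, 5) = colq p (i, j, 2)) := by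
  have el : gv n i j 20 = (i, j, 5) := by simp [gv]
  have er : gv n i j 22 = (i, sc n j, 5) := by simp [gv]
  have et : gv n i j 8 = (i, j, 2) := by simp [gv]
  have eb : gv n i j 9 = (i + 1, j, 2) := by simp [gv]
  rw [← el, ← er, ← et, ← eb]
  have key : ∀ a b : ℕ, (a, b) ∈ pairL (τ i j) → colq p (gv n i j a) ≠ colq p (gv n i j b) :=
    fun a b h => hg.pair_ne hp hf hi1 hi hj h
  have hsub : ∀ q ∈ pairL 2, q ∈ pairL (τ i j) := by
    intro q hq
    simp only [pairL, List.mem_append] at hq ⊢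
    left; left
    simpa using hq
  have k : ∀ a b : ℕ, (a, b) ∈ pairL 2 → colq p (gv n i j a) ≠ colq p (gv n i j b) :=
    fun a b h => key a b (hsub _ h)
  obtain ⟨c1, c2⟩ := cross_core (k 28 32 (by decide)) (k 48 8 (by decide)) (k 32 8 (by decide))
    (k 36 32 (by decide)) (k 8 52 (by decide)) (k 52 36 (by decide)) (k 28 36 (by decide))
    (k 52 22 (by decide)) (k 36 22 (by decide)) (k 40 36 (by decide)) (k 22 56 (by decide))
    (k 56 40 (by decide)) (k 28 40 (by decide)) (k 56 9 (by decide)) (k 40 9 (by decide))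
    (k 44 40 (by decide)) (k 9 60 (by decide)) (k 60 44 (by decide)) (k 28 44 (by decide))
    (k 60 20 (by decide)) (k 44 20 (by decide)) (k 32 44 (by decide)) (k 20 48 (by decide))
    (k 48 32 (by decide))
  refine ⟨c1, c2, fun h => ?_, fun h => ?_⟩
  · exact key 20 8 (by rw [h]; decide)
  · exact eq_core (key 832 8 (by rw [h]; decide)) (key 832 48 (by rw [h]; decide))
      (k 48 8 (by decide)) (key 832 20 (by rw [h]; decide)) (k 20 48 (by decide))

/-- A partition of the grid graph gives a 3-colouring of rows and columns. -/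
theorem sound (hg : Good n τ) (h : HasPart (gridGraph hg)) : ∃ X Y : ℕ → Fin 3,
    ∀ i j, 1 ≤ i → i ≤ n → j < n → (τ i j = 3 → X i ≠ Y j) ∧ (τ i j = 4 → X i = Y j) := by
  obtain ⟨p, hp, hf⟩ := h
  have hn := hg.hn
  have hX : ∀ i, 1 ≤ i → i ≤ n → ∀ j, j < n → colq p (i, j, 5) = colq p (i, 0, 5) := by
    intro i hi1 hi j
    induction j with
    | zero => intro _; rfl
    | succ j ih =>
      intro hj
      have h1 := (hg.block_core hp hf hi1 hi (j := j) (by omega)).1
      have h2 : sc n j = j + 1 := by unfold sc; rw [if_neg (by omega)]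
      rw [h2] at h1
      rw [← h1]
      exact ih (by omega)
  have hY : ∀ j < n, ∀ i, i < n → colq p (i + 1, j, 2) = colq p (1, j, 2) := by
    intro j hj i
    induction i with
    | zero => intro _; rfl
    | succ i ih =>
      intro hi
      have h1 := (hg.block_core hp hf (i := i + 1) (by omega) (by omega) hj).2.1
      rw [← h1]
      exact ih (by omega)
  refine ⟨fun i => colq p (i, 0, 5), fun j => colq p (1, j, 2), fun i j hi1 hi hj => ?_⟩
  obtain ⟨-, -, h3, h4⟩ := hg.block_core hp hf hi1 hi hj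
  have e1 := hX i hi1 hi j hj
  have e2 := hY j hj (i - 1) (by omega)
  rw [Nat.sub_add_cancel hi1] at e2
  rw [e1, e2] at h3 h4
  exact ⟨h3, h4⟩

end

end Pool.Agent.OOD
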